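import Pool.Agent.MP_5a4599_gt.K.Defs

/- Clubs and the combinatorial principles. -/

set_option autoImplicit false

namespace Pool.Agent.MP_5a4599_gt.K

open Set Filter Cardinal

/-- The principle KA of Kunen: a ladder system such that every club hits some ladder. -/
def KA : Prop := ∃ L : W → ℕ → W,
  (∀ d, Order.IsSuccLimit d → StrictMono (L d) ∧ IsLUB (range (L d)) d) ∧
    ∀ C, IsClub C → ∃ d, Order.IsSuccLimit d ∧ Hits C (L d)

/-- The bounding number exceeds `ℵ₁`. -/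
def BigB : Prop := ∀ f : W → ℕ → ℕ, ∃ g, ∀ a, f a ≤ᶠ[atTop] g

/-- The dominating number is `ℵ₁`. -/
def SmallD : Prop := ∃ f : W → ℕ → ℕ, ∀ g, ∃ a, g ≤ᶠ[atTop] f a

/-- Some set of at most `ℵ₁` points of the Baire space is not meagre. -/
def SmallM : Prop := ∃ f : W → ℕ → ℕ, ¬ IsMeagre (range f)

theorem mk_W : #W = ℵ₁ := mk_ord_toType _

theorem ct_Iio (a : W) : (Iio a).Countable :=
  le_aleph0_iff_set_countable.1 (lt_aleph_one_iff.1 ((mk_Iio_lt a (by simp)).trans_eq mk_W))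

theorem ct_Iic (a : W) : (Iic a).Countable := by
  rw [← Iio_insert]
  exact (ct_Iio a).insert a

theorem bdd {s : Set W} (h : s.Countable) : ∃ b, ∀ a ∈ s, a < b := by
  by_contra! H
  have : (Set.univ : Set W).Countable :=
    (h.biUnion fun a _ => ct_Iic a).mono fun b _ => by
      obtain ⟨a, ha, hb⟩ := H b
      exact mem_biUnion ha hb
  rw [← le_aleph0_iff_set_countable, mk_univ, mk_W] at this
  exact aleph0_lt_aleph_one.not_ge this

theorem bdd_fun {I : Type} [Countable I] (f : I → W) : ∃ b, ∀ i, f i < b := by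
  obtain ⟨b, hb⟩ := bdd (countable_range f)
  exact ⟨b, fun i => hb _ ⟨i, rfl⟩⟩

instance : Nonempty W := let ⟨b, _⟩ := bdd countable_empty; ⟨b⟩

instance : NoMaxOrder W := ⟨fun a => let ⟨b, hb⟩ := bdd (countable_singleton a); ⟨b, hb a rfl⟩⟩

theorem lub {s : Set W} (h : s.Countable) : ∃ d, IsLUB s d := by
  obtain ⟨b, hb⟩ := bdd h
  obtain ⟨d, hd, hm⟩ := wellFounded_lt.has_min (upperBounds s) ⟨b, fun a ha => (hb a ha).le⟩
  exact ⟨d, hd, fun c hc => not_lt.1 (hm c hc)⟩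

theorem club_gt {C : Set W} (hC : IsClub C) (a : W) : ∃ c ∈ C, a < c := by
  obtain ⟨b, hb⟩ := exists_gt a
  obtain ⟨c, hc, h⟩ := hC.isCofinal b
  exact ⟨c, hc, hb.trans_le h⟩

/-- Closure points of a function inside a club. -/
theorem clo1 {C : Set W} (hC : IsClub C) (h : W → W) :
    IsClub {z | z ∈ C ∧ ∀ a < z, h a < z} := by
  constructor
  · intro s hs hne hd z hz
    refine ⟨hC.dirSupClosed (fun c hc => (hs hc).1) hne hd hz, fun a ha => ?_⟩
    obtain ⟨c, hc, h₁⟩ := (lt_isLUB_iff hz).1 ha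
    exact ((hs hc).2 a h₁).trans_le (hz.1 hc)
  · intro a
    have : ∀ b, ∃ c ∈ C, b < c ∧ ∀ a ≤ b, h a < c := fun b => by
      obtain ⟨c, hc⟩ := bdd ((ct_Iic b).image h)
      obtain ⟨c', h₁, h₂⟩ := club_gt hC (max b c)
      exact ⟨c', h₁, (le_max_left _ _).trans_lt h₂, fun a ha =>
        (hc _ ⟨a, ha, rfl⟩).trans ((le_max_right _ _).trans_lt h₂)⟩
    choose H H₁ H₂ H₃ using this
    obtain ⟨z, hz⟩ := lub (countable_range fun n : ℕ => H (H^[n] a))
    refine ⟨z, ⟨hC.isLUB_mem (by rintro _ ⟨n, rfl⟩; exact H₁ _) (range_nonempty _) hz,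
      fun b hb => ?_⟩, (H₂ a).le.trans (hz.1 ⟨0, rfl⟩)⟩
    obtain ⟨_, ⟨n, rfl⟩, h₁⟩ := (lt_isLUB_iff hz).1 hb
    exact (H₃ _ b h₁.le).trans_le (hz.1 ⟨n + 1, by simp only [Function.iterate_succ_apply']⟩)

/-- Closure points of countably many finitary functions. -/
theorem clo {I : Type} [Countable I] (G : I → List W → W) : ∃ C, IsClub C ∧
    ∀ z ∈ C, ∀ a < z, ∀ i s, (∀ x ∈ s, x < z) → G i s < z := by
  have : ∀ a, ∃ b, ∀ i s, (∀ x ∈ s, x ≤ a) → G i s < b := fun a => by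
    have := (ct_Iic a).to_subtype
    obtain ⟨b, hb⟩ := bdd_fun fun p : I × List (Iic a) => G p.1 (p.2.map Subtype.val)
    refine ⟨b, fun i s hs => ?_⟩
    lift s to List (Iic a) using hs
    exact hb (i, s)
  choose h hh using this
  refine ⟨_, clo1 IsClub.univ h, fun z hz a ha i s hs => ?_⟩
  obtain ⟨b, hb, h'⟩ : ∃ b < z, ∀ x ∈ s, x ≤ b := by
    induction s with
    | nil => exact ⟨a, ha, by simp⟩
    | cons x s ih =>
      obtain ⟨b, hb, h'⟩ := ih fun y hy => hs y (List.mem_cons_of_mem _ hy)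
      refine ⟨max x b, max_lt (hs x List.mem_cons_self) hb, fun y hy => ?_⟩
      rcases List.mem_cons.1 hy with rfl | hy
      exacts [le_max_left _ _, (h' y hy).trans (le_max_right _ _)]
  exact (hh b i s h').trans (hz.2 b hb)

theorem exists_mono : ∃ y : ℕ → W, StrictMono y := Nat.exists_strictMono W

theorem limit_of {y : ℕ → W} (hy : StrictMono y) {d : W} (hd : IsLUB (range y) d) :
    Order.IsSuccLimit d := by
  have h : ∀ n, y n < d := fun n => (hy (Nat.lt_succ_self n)).trans_le (hd.1 ⟨_, rfl⟩)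
  refine ⟨not_isMin_of_lt (h 0), fun b hb => ?_⟩
  obtain ⟨_, ⟨n, rfl⟩, h₁⟩ := (lt_isLUB_iff hd).1 hb.1
  exact hb.2 h₁ (h n)

theorem ladder : ∃ L : W → ℕ → W, ∀ d, StrictMono (L d) ∧
    (Order.IsSuccLimit d → IsLUB (range (L d)) d) := by
  have : ∀ d : W, ∃ L : ℕ → W, StrictMono L ∧ (Order.IsSuccLimit d → IsLUB (range L) d) := by
    intro d
    by_cases hd : Order.IsSuccLimit d
    swap
    · exact exists_mono.imp fun L hL => ⟨hL, fun h => absurd h hd⟩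
    obtain ⟨e, he⟩ := (ct_Iio d).exists_eq_range (by simpa using hd.not_isMin)
    have he' : ∀ n, e n < d := fun n => show e n ∈ Iio d from he ▸ mem_range_self n
    let L : ℕ → W := fun n => Nat.rec (e 0) (fun n a => Order.succ (max a (e n))) n
    have h₁ : ∀ n, L n < d := fun n => by
      induction n with
      | zero => exact he' 0
      | succ n ih => exact hd.succ_lt (max_lt ih (he' n))
    refine ⟨L, strictMono_nat_of_lt_succ fun n => (le_max_left _ _).trans_lt (Order.lt_succ _),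
      fun _ => ⟨by rintro _ ⟨n, rfl⟩; exact (h₁ n).le, fun b hb => le_of_forall_lt fun a ha => ?_⟩⟩
    obtain ⟨n, rfl⟩ : a ∈ range e := he ▸ ha
    exact ((le_max_right _ _).trans_lt (Order.lt_succ _)).trans_le (hb ⟨n + 1, rfl⟩)
  exact ⟨_, fun d => (this d).choose_spec⟩

theorem exists_pair : ∃ p : W → W × W, Function.Surjective p := by
  obtain ⟨e⟩ : Nonempty (W ≃ W × W) := Cardinal.eq.1 (by simp)
  exact ⟨e, e.surjective⟩

theorem ih_of_ka (h : KA) : IH := by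
  classical
  obtain ⟨L, h₁, h₂⟩ := h
  obtain ⟨y, hy⟩ := exists_mono
  refine ⟨fun d => if Order.IsSuccLimit d then L d else y, fun d => ?_, fun C hC => ?_⟩
  · dsimp only
    split_ifs with h
    exacts [(h₁ d h).1, hy]
  · obtain ⟨d, hd, h⟩ := h₂ C hC
    exact ⟨d, by simpa only [if_pos hd] using h⟩

/-- Iterating a bound. -/
def itr (g : ℕ → ℕ) : ℕ → ℕ
  | 0 => 0
  | n + 1 => max (g (itr g n)) (itr g n + 1)

theorem itr_mono (g : ℕ → ℕ) : StrictMono (itr g) :=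
  strictMono_nat_of_lt_succ fun _ => Nat.lt_of_succ_le (le_max_right _ _)

theorem hits_itr {C : Set W} {L : ℕ → W} (hL : StrictMono L) {f g : ℕ → ℕ} (h : f ≤ᶠ[atTop] g)
    (hf : ∀ᶠ n in atTop, (C ∩ Ico (L n) (L (f n))).Nonempty) : Hits C (L ∘ itr g) := by
  filter_upwards [(itr_mono g).tendsto_atTop.eventually (h.and hf)] with n ⟨h₁, c, hc, h₂, h₃⟩
  exact ⟨c, hc, h₂, h₃.trans_le (hL.monotone (h₁.trans (le_max_left _ _)))⟩

theorem ih_of_d (h : SmallD) : IH := by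
  obtain ⟨f, hf⟩ := h
  obtain ⟨L, hL⟩ := ladder
  obtain ⟨p, hp⟩ := exists_pair
  refine ⟨fun a => L (p a).1 ∘ itr (f (p a).2), fun a => (hL _).1.comp (itr_mono _),
    fun C hC => ?_⟩
  choose H H₁ H₂ using club_gt hC
  obtain ⟨a⟩ : Nonempty W := inferInstance
  have hy : StrictMono fun n : ℕ => H^[n] a := strictMono_nat_of_lt_succ fun n => by
    rw [Function.iterate_succ_apply']; exact H₂ _
  obtain ⟨d, hd⟩ := lub (countable_range fun n : ℕ => H^[n] a)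
  have hl := (hL d).2 (limit_of hy hd)
  have : ∀ n, ∃ m, (C ∩ Ico (L d n) (L d m)).Nonempty := fun n => by
    obtain ⟨_, ⟨k, rfl⟩, h₁⟩ := (lt_isLUB_iff hd).1
      (((hL d).1 (Nat.lt_succ_self n)).trans_le (hl.1 ⟨_, rfl⟩))
    obtain ⟨_, ⟨m, rfl⟩, h₂⟩ := (lt_isLUB_iff hl).1
      ((hy (Nat.lt_succ_self (k + 1))).trans_le (hd.1 ⟨_, rfl⟩))
    exact ⟨m, _, by dsimp only; rw [Function.iterate_succ_apply']; exact H₁ _,
      (h₁.trans (hy (Nat.lt_succ_self k))).le, h₂⟩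
  choose g hg using this
  obtain ⟨b, hb⟩ := hf g
  obtain ⟨c, hc⟩ := hp (d, b)
  exact ⟨c, by simpa only [hc] using hits_itr (hL d).1 hb (.of_forall hg)⟩

theorem ka_of_ih (hB : BigB) (h : IH) : KA := by
  obtain ⟨y, hy, h⟩ := h
  obtain ⟨L, hL⟩ := ladder
  choose d hd using fun a => lub (countable_range (y a))
  have hl := fun a => (hL (d a)).2 (limit_of (hy a) (hd a))
  have : ∀ a n, ∃ m i, n ≤ i ∧ L (d a) n ≤ y a i ∧ y a (i + 1) ≤ L (d a) m := fun a n => by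
    obtain ⟨_, ⟨k, rfl⟩, h₁⟩ := (lt_isLUB_iff (hd a)).1
      (((hL _).1 (Nat.lt_succ_self n)).trans_le ((hl a).1 ⟨_, rfl⟩))
    obtain ⟨_, ⟨m, rfl⟩, h₂⟩ := (lt_isLUB_iff (hl a)).1
      ((hy a (Nat.lt_succ_self (max n k + 1))).trans_le ((hd a).1 ⟨_, rfl⟩))
    exact ⟨m, max n k, le_max_left _ _, h₁.le.trans ((hy a).monotone (le_max_right _ _)), h₂.le⟩
  choose f i h₁ h₂ h₃ using this
  obtain ⟨g, hg⟩ := hB f
  refine ⟨fun c => L c ∘ itr g, fun c hc => ⟨(hL c).1.comp (itr_mono g), ?_, fun b hb => ?_⟩,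
    fun C hC => ?_⟩
  · rintro _ ⟨n, rfl⟩
    exact ((hL c).2 hc).1 ⟨_, rfl⟩
  · refine ((hL c).2 hc).2 ?_
    rintro _ ⟨n, rfl⟩
    exact ((hL c).1.monotone (itr_mono g).le_apply).trans (hb ⟨n, rfl⟩)
  · obtain ⟨a, ha⟩ := h C hC
    refine ⟨d a, limit_of (hy a) (hd a), hits_itr (hL _).1 (hg a) ?_⟩
    filter_upwards [(tendsto_atTop_mono (h₁ a) tendsto_id).eventually ha] with n ⟨c, hc, k₁, k₂⟩
    exact ⟨c, hc, (h₂ a n).trans k₁, k₂.trans_le (h₃ a n)⟩

/-- Clubs that miss infinitely many intervals. -/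
theorem star (h : ¬ IH) (A B : W → ℕ → W) (h₁ : ∀ x n, A x n ≤ B x n)
    (h₂ : ∀ x n, ∃ N, ∀ n', N ≤ n' → B x n ≤ A x n') :
    ∃ C, IsClub C ∧ ∀ x N, ∃ n, N ≤ n ∧ ∀ c ∈ C, A x n < c → B x n < c := by
  have : ∀ x, ∃ y : ℕ → W, StrictMono y ∧ ∀ C, ¬ Hits C y →
      ∀ N, ∃ n, N ≤ n ∧ ∀ c ∈ C, A x n < c → B x n < c := fun x => by
    by_cases h₃ : ∀ N, ∃ n, N ≤ n ∧ B x n ≤ A x n
    · refine exists_mono.imp fun y hy => ⟨hy, fun C _ N => ?_⟩
      exact (h₃ N).imp fun n hn => ⟨hn.1, fun c _ hc => hn.2.trans_lt hc⟩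
    push Not at h₃
    obtain ⟨N₀, h₃⟩ := h₃
    have : ∀ n, ∃ n', n < n' ∧ B x n < A x n' := fun n => by
      obtain ⟨N, hN⟩ := h₂ x n
      obtain ⟨N', hN'⟩ := h₂ x (max N N₀)
      exact ⟨max N' (n + 1), Nat.lt_of_succ_le (le_max_right _ _), ((hN _ (le_max_left _ _)).trans_lt
        (h₃ _ (le_max_right _ _))).trans_le (hN' _ (le_max_left _ _))⟩
    choose s s₁ s₂ using this
    have hs : StrictMono fun i : ℕ => s^[i] 0 := strictMono_nat_of_lt_succ fun i => by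
      rw [Function.iterate_succ_apply']; exact s₁ _
    refine ⟨fun i => A x (s^[i] 0), strictMono_nat_of_lt_succ fun i => ?_, fun C hC N => ?_⟩
    · rw [Function.iterate_succ_apply']
      exact (h₁ _ _).trans_lt (s₂ _)
    · obtain ⟨i, hi, h⟩ := frequently_atTop.1 (not_eventually.1 hC) N
      refine ⟨_, hi.trans hs.le_apply, fun c hc h' => (s₂ _).trans_le (not_lt.1 fun h'' => ?_)⟩
      exact h ⟨c, hc, h'.le, by dsimp only; rwa [Function.iterate_succ_apply']⟩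
  choose y hy hy' using this
  by_contra H
  refine h ⟨y, hy, fun C hC => ?_⟩
  by_contra! H'
  exact H ⟨C, hC, fun x => hy' x C (H' x)⟩

end Pool.Agent.MP_5a4599_gt.K
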