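import Mathlib

/- Interval hitting principles and spaces with a sigma locally countable base. -/

set_option autoImplicit false

namespace Pool.Agent.MP_5a4599_gt.K

open Set Filter Cardinal TopologicalSpace Topology

/-- The well-ordered set of countable ordinals. -/
abbrev W : Type := (ℵ₁ : Cardinal.{0}).ord.ToType

/-- `C` meets `[y n, y (n+1))` for all large `n`. -/
def Hits (C : Set W) (y : ℕ → W) : Prop := ∀ᶠ n in atTop, (C ∩ Ico (y n) (y (n + 1))).Nonempty

/-- Interval hitting: `ℵ₁` increasing sequences such that every club hits one of them. -/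
def IH : Prop := ∃ y : W → ℕ → W, (∀ a, StrictMono (y a)) ∧ ∀ C, IsClub C → ∃ a, Hits C (y a)

variable (X : Type) [TopologicalSpace X]

/-- There is a sigma locally countable base. -/
def SigmaLC : Prop := ∃ B : ℕ → Set (Set X), IsTopologicalBasis (⋃ n, B n) ∧
  ∀ n x, ∃ U ∈ 𝓝 x, {V ∈ B n | (V ∩ U).Nonempty}.Countable

/-- There is a sigma disjoint base. -/
def SigmaDisj : Prop := ∃ B : ℕ → Set (Set X), IsTopologicalBasis (⋃ n, B n) ∧
  ∀ n, (B n).PairwiseDisjoint id

/-- Closed sets are `Gδ`. -/
def Perf : Prop := ∀ F : Set X, IsClosed F → IsGδ F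

/-- If `C` is an open cover, it has a point-finite open refinement. -/
def Refines (C : Set (Set X)) : Prop := (∀ U ∈ C, IsOpen U) → ⋃₀ C = Set.univ →
  ∃ R : Set (Set X), (∀ V ∈ R, IsOpen V ∧ ∃ U ∈ C, V ⊆ U) ∧ ⋃₀ R = Set.univ ∧
    ∀ x, {V ∈ R | x ∈ V}.Finite

/-- Open covers have point-finite open refinements. -/
def Metacompact : Prop := ∀ C, Refines X C

/-- Countable open covers have point-finite open refinements. -/
def CMetacompact : Prop := ∀ C, C.Countable → Refines X C

/-- Every regular `T1` space of size `ℵ₁` with a sigma locally countable base has `P`. -/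
def All (P : ∀ (X : Type) [TopologicalSpace X], Prop) : Prop :=
  ∀ (X : Type) [TopologicalSpace X] [T3Space X], #X = ℵ₁ → SigmaLC X → P X

end Pool.Agent.MP_5a4599_gt.K
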