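import Pool.Agent.MP_5a4599_gt.K.Sys

/- The space built from an interval hitting family. -/

set_option autoImplicit false

namespace Pool.Agent.MP_5a4599_gt.K

open Set Filter Cardinal TopologicalSpace Topology

/-- The data of the construction. -/
structure Dat where
  c : W → ℕ → W
  e : W → ℕ → W
  r : W → Set ℕ
  k : ℕ → ℕ
  u : ℕ → Finset (ℕ × ℕ)
  v : ℕ → ℕ
  ok : W → ℕ → Prop
  hc : ∀ a, StrictMono (c a)
  hs : ∀ C, IsClub C → ∀ a, ∃ b, Sep C a (c b)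
  he : ∀ b a, a < b → (∃ m, e b m = a) ∧ ∀ m, e b m < b
  hr : r.Injective
  hk : ∀ n w t, ∃ l, k l = n ∧ u l = w ∧ v l = t

theorem exists_dat (h : IH) : ∃ D : Dat, ∀ a l, D.ok a l := by
  obtain ⟨c, hc, hs⟩ := exists_sep h
  obtain ⟨e, he⟩ := exists_enum
  obtain ⟨r⟩ : Nonempty (W ↪ Set ℕ) := by
    rw [← Cardinal.le_def, mk_W, mk_set_nat]
    exact aleph_one_le_continuum
  obtain ⟨f, hf⟩ := exists_surjective_nat (ℕ × Finset (ℕ × ℕ) × ℕ)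
  exact ⟨⟨c, e, r, fun l => (f l).1, fun l => (f l).2.1, fun l => (f l).2.2, fun _ _ => True,
    hc, hs, he, r.injective, fun n w t => (hf (n, w, t)).imp fun l hl => by simp [hl]⟩,
    fun _ _ => trivial⟩

theorem exists_dat' (h : IH) : ∃ (D : Dat) (lv : W → ℕ), (∀ a l, D.ok a l → l = lv a) ∧
    ∀ b l, ∃ a, D.c a = D.c b ∧ D.ok a l := by
  obtain ⟨D, -⟩ := exists_dat h
  obtain ⟨p, hp⟩ := exists_pair
  obtain ⟨w, hw⟩ := exists_mono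
  obtain ⟨q, hq⟩ := hw.injective.hasLeftInverse
  refine ⟨{ D with
      c := fun a => D.c (p a).1
      ok := fun a l => l = q (p a).2
      hc := fun a => D.hc _
      hs := fun C hC a => ?_ }, fun a => q (p a).2, fun _ _ h => h, fun b l => ?_⟩
  · obtain ⟨b, hb⟩ := D.hs C hC a
    obtain ⟨b', h⟩ := hp (b, b)
    exact ⟨b', by simpa only [h] using hb⟩
  · obtain ⟨a, h⟩ := hp ((p b).1, w l)
    exact ⟨a, by simp only [h], by simp only [h, hq l]⟩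

namespace Dat

variable (D : Dat)

/-- The points. -/
abbrev X : Type := ℕ × W × range D.c

/-- The point `(a, d)` of the open part is attached to the node `(b, g | n)` at the segment `l`. -/
structure At (t : ℕ) (b : W) (g : ℕ → W) (n : ℕ) (a : W) (d : ℕ → W) (l : ℕ) : Prop where
  h₁ : a < d 0
  h₂ : ∀ i, D.c a i < d 0
  h₃ : ∀ i < n, d i ≤ g i ∧ g i < d (i + 1)
  h₄ : n ≤ D.k l
  h₅ : D.c a l ≤ b
  h₆ : b < D.c a (l + 1)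
  h₇ : ∀ m ≤ l, D.e b m < D.c a 0
  h₈ : ∀ i < n, ∀ m < D.k l, m ∈ D.r (g i) ↔ (i, m) ∈ D.u l
  h₉ : D.v l = t
  h₀ : D.ok a l

/-- The basic sets. -/
def M (t : ℕ) (b : W) (g : ℕ → W) (n : ℕ) : Set D.X :=
  {x | (x.1 = t ∧ x.2.1 = b ∧ ∀ i < n, x.2.2.1 i = g i) ∨
    (t ≠ 0 ∧ x.1 = 0 ∧ ∃ l, D.At t b g n x.2.1 x.2.2.1 l)}

/-- The neighbourhood system. -/
def N (p : D.X) (n : ℕ) : Set D.X := D.M p.1 p.2.1 p.2.2.1 n

variable {D}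

theorem mono (y : range D.c) : StrictMono y.1 := by
  obtain ⟨_, a, rfl⟩ := y
  exact D.hc a

theorem At.congr {b a : W} {g g' d d' : ℕ → W} {t n n' l : ℕ} (h : D.At t b g n a d l)
    (hn : n' ≤ n) (hg : ∀ i < n', g' i = g i) (hd : ∀ i ≤ n', d' i = d i) :
    D.At t b g' n' a d' l where
  h₁ := hd 0 (Nat.zero_le _) ▸ h.h₁
  h₂ := hd 0 (Nat.zero_le _) ▸ h.h₂
  h₃ i hi := by
    rw [hg i hi, hd i hi.le, hd _ hi]
    exact h.h₃ i (hi.trans_le hn)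
  h₄ := hn.trans h.h₄
  h₅ := h.h₅
  h₆ := h.h₆
  h₇ := h.h₇
  h₈ i hi := by
    rw [hg i hi]
    exact h.h₈ i (hi.trans_le hn)
  h₉ := h.h₉
  h₀ := h.h₀

theorem M_sub {t : ℕ} {b : W} {g g' : ℕ → W} {n n' : ℕ} (hn : n' ≤ n)
    (hg : ∀ i < n', g' i = g i) : D.M t b g n ⊆ D.M t b g' n' := by
  rintro x (⟨h₁, h₂, h₃⟩ | ⟨h₁, h₂, l, h⟩)
  · exact .inl ⟨h₁, h₂, fun i hi => (h₃ i (hi.trans_le hn)).trans (hg i hi).symm⟩
  · exact .inr ⟨h₁, h₂, l, h.congr hn hg fun _ _ => rfl⟩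

theorem seg {a b : W} {l l' : ℕ} (h : D.c a l ≤ b) (h' : b < D.c a (l' + 1)) : l ≤ l' :=
  Nat.lt_succ_iff.1 ((D.hc a).lt_iff_lt.1 (h.trans_lt h'))

theorem seg_bd (a b : W) : ∃ E, ∀ l, D.c a l ≤ b → b < D.c a (l + 1) → l ≤ E := by
  by_cases h : ∃ l, b < D.c a (l + 1)
  · exact h.imp fun E hE l hl _ => seg hl hE
  · exact ⟨0, fun l _ hl => absurd ⟨l, hl⟩ h⟩

theorem k_bd (E : ℕ) : ∃ m, ∀ l ≤ E, D.k l < m :=
  ⟨(Finset.range (E + 1)).sup D.k + 1, fun l hl =>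
    Nat.lt_succ_of_le (Finset.le_sup (f := D.k) (by simpa [Nat.lt_succ_iff] using hl))⟩

theorem two_bd {b b' : W} (h : b ≠ b') : ∃ E, ∀ t t' g g' n n' a d l l', D.At t b g n a d l →
    D.At t' b' g' n' a d l' → l' ≤ E := by
  have key : ∀ {b b' : W}, b < b' → ∃ E, ∀ t t' g g' n n' a d l l', D.At t b g n a d l →
      D.At t' b' g' n' a d l' → l ≤ E ∧ l' ≤ E := fun {b b'} h => by
    obtain ⟨E, hE⟩ := (D.he b' b h).1
    refine ⟨E, fun t t' g g' n n' a d l l' h₁ h₂ => ?_⟩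
    have : l' ≤ E := not_lt.1 fun h' => (h₂.h₇ E h'.le).not_ge
      (hE ▸ ((D.hc a).monotone (Nat.zero_le l)).trans h₁.h₅)
    exact ⟨(seg (h₁.h₅.trans h.le) h₂.h₆).trans this, this⟩
  rcases h.lt_or_gt with h | h
  · exact (key h).imp fun E hE _ _ _ _ _ _ _ _ _ _ h₁ h₂ => (hE _ _ _ _ _ _ _ _ _ _ h₁ h₂).2
  · exact (key h).imp fun E hE _ _ _ _ _ _ _ _ _ _ h₁ h₂ => (hE _ _ _ _ _ _ _ _ _ _ h₂ h₁).1

theorem U_sub {p q : D.X} {n : ℕ} (hq : q.1 = 0) (h : q ∈ D.N p n) :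
    D.N q (n + 1) ⊆ D.N p n := by
  rintro x (⟨h₁, h₂, h₃⟩ | ⟨h₁, -⟩)
  · rcases h with ⟨k₁, k₂, k₃⟩ | ⟨k₁, k₂, l, k₃⟩
    · exact .inl ⟨h₁.trans k₁, h₂.trans k₂, fun i hi =>
        (h₃ i (hi.trans n.lt_succ_self)).trans (k₃ i hi)⟩
    · exact .inr ⟨k₁, h₁.trans k₂, l, h₂ ▸ k₃.congr le_rfl (fun _ _ => rfl)
        fun i hi => h₃ i (Nat.lt_succ_of_le hi)⟩
  · simp [hq] at h₁

theorem bound {p q x : D.X} {n : ℕ} (hp : x ∈ D.N p (n + 1)) (hq : x ∈ D.N q n) :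
    q.2.1 ≤ max p.2.1 (p.2.2.1 n) ∧ ∀ i < n, q.2.2.1 i ≤ p.2.2.1 n := by
  have h₁ : ∀ i ≤ n, x.2.2.1 i ≤ p.2.2.1 n := fun i hi => by
    refine le_trans ?_ ((mono p.2.2).monotone hi)
    rcases hp with ⟨-, -, h⟩ | ⟨-, -, l, h⟩
    exacts [(h i (Nat.lt_succ_of_le hi)).le, (h.h₃ i (Nat.lt_succ_of_le hi)).1]
  rcases hq with ⟨-, k₂, k₃⟩ | ⟨-, -, l, k⟩
  · refine ⟨k₂ ▸ ?_, fun i hi => k₃ i hi ▸ h₁ i hi.le⟩
    rcases hp with ⟨-, h, -⟩ | ⟨-, -, l, h⟩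
    exacts [h.le.trans (le_max_left _ _),
      (h.h₁.le.trans (h₁ 0 (Nat.zero_le _))).trans (le_max_right _ _)]
  · exact ⟨((k.h₆.trans (k.h₂ _)).le.trans (h₁ 0 (Nat.zero_le _))).trans (le_max_right _ _),
      fun i hi => (k.h₃ i hi).2.le.trans (h₁ _ hi)⟩

theorem sys : Sys D.N where
  mem p n := .inl ⟨rfl, rfl, fun _ _ => rfl⟩
  anti p n m h := M_sub h fun _ _ => rfl
  op p n q h := by
    by_cases hq : q.1 = 0
    · exact ⟨_, U_sub hq h⟩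
    rcases h with ⟨h₁, h₂, h₃⟩ | ⟨-, h, -⟩
    · exact ⟨n, by rw [N, h₁, h₂]; exact M_sub le_rfl fun i hi => (h₃ i hi).symm⟩
    · exact absurd h hq
  cl p n q h := by
    by_cases hq : q.1 = 0
    · refine ⟨n + 1, fun x hx hp => h ?_⟩
      rcases hx with ⟨h₁, h₂, h₃⟩ | ⟨h₁, -⟩
      · exact U_sub (h₁.trans hq) hp (.inl ⟨h₁.symm, h₂.symm, fun i hi => (h₃ i hi).symm⟩)
      · simp [hq] at h₁
    suffices ∃ m, ∀ x : D.X, x.1 = 0 → ∀ l, D.At q.1 q.2.1 q.2.2.1 m x.2.1 x.2.2.1 l →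
        x ∉ D.N p n by
      obtain ⟨m, hm⟩ := this
      refine ⟨max n m, ?_⟩
      rintro x (⟨h₁, h₂, h₃⟩ | ⟨-, h₂, l, h₃⟩) hp
      · rcases hp with ⟨k₁, k₂, k₃⟩ | ⟨-, k₂, -⟩
        · exact h (.inl ⟨h₁ ▸ k₁, h₂ ▸ k₂, fun i hi =>
            (h₃ i (hi.trans_le (le_max_left _ _))).symm.trans (k₃ i hi)⟩)
        · exact hq (h₁ ▸ k₂)
      · exact hm x h₂ l (h₃.congr (le_max_right _ _) (fun _ _ => rfl) fun _ _ => rfl) hp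
    by_cases hp : p.1 = 0
    · obtain ⟨E, hE⟩ := seg_bd (D := D) p.2.1 q.2.1
      obtain ⟨m, hm⟩ := k_bd (D := D) E
      refine ⟨m, ?_⟩
      rintro x - l hl (⟨-, h₂, -⟩ | ⟨h₁, -⟩)
      · exact (hm l (hE l (h₂ ▸ hl.h₅) (h₂ ▸ hl.h₆))).not_ge hl.h₄
      · simp [hp] at h₁
    by_cases hb : p.2.1 = q.2.1
    swap
    · obtain ⟨E, hE⟩ := two_bd (D := D) hb
      obtain ⟨m, hm⟩ := k_bd (D := D) E
      refine ⟨m, ?_⟩
      rintro x hx l hl (⟨h₁, -⟩ | ⟨-, -, l', h₁⟩)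
      · exact hp (h₁ ▸ hx)
      · exact (hm l (hE _ _ _ _ _ _ _ _ _ _ h₁ hl)).not_ge hl.h₄
    by_cases ht : q.1 = p.1
    swap
    · refine ⟨0, ?_⟩
      rintro x hx l hl (⟨h₂, -⟩ | ⟨-, -, l', h₂⟩)
      · exact hp (h₂ ▸ hx)
      · obtain rfl : l = l' := (seg hl.h₅ (hb ▸ h₂.h₆)).antisymm (seg h₂.h₅ (hb ▸ hl.h₆))
        exact ht (hl.h₉.symm.trans h₂.h₉)
    obtain ⟨i, hi, h₁⟩ : ∃ i < n, q.2.2.1 i ≠ p.2.2.1 i := by
      by_contra! H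
      exact h (.inl ⟨ht, hb.symm, H⟩)
    obtain ⟨m, hm⟩ := not_forall.1 fun H => h₁ (D.hr (Set.ext H))
    refine ⟨max n (m + 1), ?_⟩
    rintro x hx l hl (⟨h₂, -⟩ | ⟨-, -, l', h₂⟩)
    · exact hp (h₂ ▸ hx)
    · obtain rfl : l = l' := (seg hl.h₅ (hb ▸ h₂.h₆)).antisymm (seg h₂.h₅ (hb ▸ hl.h₆))
      have h₃ : m < D.k l := (le_max_right _ _).trans hl.h₄
      exact hm ((hl.h₈ i (hi.trans_le (le_max_left _ _)) m h₃).trans (h₂.h₈ i hi m h₃).symm)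
  sep p q h := by
    obtain ⟨E, hE⟩ := seg_bd (D := D) q.2.1 p.2.1
    obtain ⟨m, hm⟩ := k_bd (D := D) E
    by_contra! H
    have : ∀ i, q.1 = p.1 ∧ q.2.1 = p.2.1 ∧ q.2.2.1 i = p.2.2.1 i := fun i => by
      rcases H (max m (i + 1)) with ⟨h₁, h₂, h₃⟩ | ⟨-, -, l, h₁⟩
      · exact ⟨h₁, h₂, h₃ i (Nat.lt_of_succ_le (le_max_right _ _))⟩
      · exact absurd ((le_max_left _ _).trans h₁.h₄) (hm l (hE l h₁.h₅ h₁.h₆)).not_ge
    exact h (Prod.ext (this 0).1 (Prod.ext (this 0).2.1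
      (Subtype.ext (funext fun i => (this i).2.2)))).symm
  lc n p := by
    have := (ct_Iic (max p.2.1 (p.2.2.1 n))).to_subtype
    refine ⟨n + 1, (countable_range fun s : ℕ × Iic (max p.2.1 (p.2.2.1 n)) ×
      (Fin n → Iic (max p.2.1 (p.2.2.1 n))) =>
        D.M s.1 s.2.1 (fun i => if h : i < n then s.2.2 ⟨i, h⟩ else p.2.1) n).mono ?_⟩
    rintro _ ⟨⟨q, rfl⟩, x, hq, hp⟩
    obtain ⟨h₁, h₂⟩ := bound hp hq
    exact ⟨(q.1, ⟨_, h₁⟩, fun i => ⟨_, (h₂ i i.2).trans (le_max_right _ _)⟩),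
      (M_sub le_rfl fun i hi => by simp [hi]).antisymm (M_sub le_rfl fun i hi => by simp [hi])⟩

theorem card : #D.X = ℵ₁ := by
  refine le_antisymm ?_ (mk_W ▸ mk_le_of_injective (f := fun a : W =>
    ((0, a, ⟨_, a, rfl⟩) : D.X)) fun a b h => congrArg (·.2.1) h)
  have h : #(range D.c) ≤ ℵ₁ := mk_W ▸ mk_range_le
  simp only [mk_prod, lift_id, mk_W]
  exact mul_le_of_le aleph0_lt_aleph_one.le (mk_le_aleph0.trans aleph0_lt_aleph_one.le)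
    (mul_le_of_le aleph0_lt_aleph_one.le le_rfl h)

theorem master {J : Set ℕ} (hJ : ∀ b (l : ℕ → ℕ), ∃ a, D.c a = D.c b ∧ ∀ j ∈ J, D.ok a (l j))
    (κ col : ℕ → D.X → ℕ) : ∃ x : D.X, x.1 = 0 ∧ ∀ j ∈ J, ∃ i,
    {b | ∃ g, col j (j + 1, b, g) = i ∧ x ∈ D.N (j + 1, b, g) (κ j (j + 1, b, g))}.Infinite := by
  classical
  let v : ℕ → (ℕ → W) → Finset (ℕ × ℕ) := fun n g =>
    (Finset.range n ×ˢ Finset.range n).filter fun z => z.2 ∈ D.r (g z.1)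
  let A : ℕ → ℕ → ℕ → W → Set (List W) := fun j i l b => {s | ∃ a,
    κ j (j + 1, b, ⟨_, a, rfl⟩) = D.k l ∧ col j (j + 1, b, ⟨_, a, rfl⟩) = i ∧
      v (D.k l) (D.c a) = D.u l ∧ s = pre (D.c a) (D.k l)}
  have h₁ : ∀ j b, ∃ i l, D.v l = j + 1 ∧ Win (A j i l b) (D.k l) [] := fun j b => by
    obtain ⟨n, ⟨i, w⟩, h⟩ := baire D.hs (fun a => κ j (j + 1, b, ⟨_, a, rfl⟩)) fun a =>
      (col j (j + 1, b, ⟨_, a, rfl⟩), v (κ j (j + 1, b, ⟨_, a, rfl⟩)) (D.c a))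
    obtain ⟨l, rfl, rfl, hl⟩ := D.hk n w (j + 1)
    refine ⟨i, l, hl, ?_⟩
    convert h using 1
    ext s
    exact exists_congr fun a => and_congr_right fun e => by rw [e, Prod.mk.injEq, and_assoc]
  choose i l a h₂ using fun j => press (fun b a h => (D.he b a h).2) (h₁ j)
  choose G G₁ G₂ G₃ using h₂
  obtain ⟨a₀, ha₀⟩ := bdd_fun a
  obtain ⟨C, hC, h₃⟩ := clo fun j s => G j (s.headD a₀)
  obtain ⟨α', hα⟩ := D.hs C hC a₀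
  obtain ⟨α, e₀, hok⟩ := hJ α' l
  rw [← e₀] at hα
  obtain ⟨a₁, ha₁⟩ := bdd ((countable_range (D.c α)).insert α)
  obtain ⟨C', hC', h₄⟩ := follow fun j => A j (i j) (l j)
  obtain ⟨δ, hδ⟩ := D.hs C' hC' a₁
  have h₅ : a₁ < D.c δ 0 := let ⟨z, _, h, _, h'⟩ := hδ 0; h.trans h'
  refine ⟨(0, α, ⟨_, δ, rfl⟩), rfl, fun j hj => ⟨i j, ?_⟩⟩
  obtain ⟨z, hz, k₁, k₂, k₃⟩ := hα (l j + 1)
  have k₄ : StrictMono fun t : ℕ => (G j)^[t] (D.c α (l j)) :=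
    strictMono_nat_of_lt_succ fun t => by rw [Function.iterate_succ_apply']; exact G₁ j _
  have k₅ : ∀ t, (G j)^[t] (D.c α (l j)) < z := fun t => by
    induction t with
    | zero => exact k₂ _ (Nat.lt_succ_self _)
    | succ t ih =>
      rw [Function.iterate_succ_apply']
      exact h₃ z hz _ k₁ j [_] (by simpa using ih)
  refine infinite_of_injective_forall_mem (k₄.comp (strictMono_nat_of_lt_succ
    (f := Nat.succ) fun t => Nat.lt_succ_self _)).injective fun t => ?_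
  have k₆ := (k₅ (t + 1)).trans k₃
  have k₇ := k₄.monotone (Nat.zero_le (t + 1))
  simp only [Function.comp, Function.iterate_succ_apply'] at k₆ k₇ ⊢
  obtain ⟨_, ⟨g, e₁, e₂, e₃, rfl⟩, hb⟩ := h₄ a₁ _ (D.hc δ) hδ j _
    (k₆.trans (ha₁ _ (.inr ⟨_, rfl⟩))) _ _ (G₂ j _).2 trivial
  refine ⟨⟨_, g, rfl⟩, e₂, .inr ⟨j.succ_ne_zero, rfl, l j, ?_⟩⟩
  rw [e₁]
  refine ⟨(ha₁ _ (.inl rfl)).trans h₅, fun t => (ha₁ _ (.inr ⟨t, rfl⟩)).trans h₅, box_pre hb,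
    le_rfl, k₇, k₆, fun m hm => ((G₃ j _ m hm).trans (ha₀ j)).trans ?_, fun s hs m hm => ?_,
    (G₂ j a₀).1, hok j hj⟩
  · obtain ⟨z, -, h, -, h'⟩ := hα 0
    exact h.trans h'
  · rw [← e₃]
    simp [v, hs, hm]

theorem no_ref (hJ : ∀ b l, ∃ a, D.c a = D.c b ∧ D.ok a l) (R : ℕ → Set (Set D.X))
    (h : ∀ p, ∃ j, ∃ V ∈ R j, (∃ n, D.N p n ⊆ V) ∧ ∃ q, V ⊆ D.N q 0) :
    ∃ j x, {V ∈ R j | x ∈ V}.Infinite := by
  choose j V h₁ h₂ q h₃ using h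
  choose n h₂ using h₂
  obtain ⟨x, -, hx⟩ := master (J := {0}) (fun b l => by simpa using hJ b (l 0)) (fun _ => n)
    fun _ => j
  obtain ⟨i, hi⟩ := hx 0 rfl
  choose! g g₁ g₂ using fun b (hb : b ∈ {b | ∃ g, j (0 + 1, b, g) = i ∧
    x ∈ D.N (0 + 1, b, g) (n (0 + 1, b, g))}) => hb
  have e : ∀ b g, (q (0 + 1, b, g)).2.1 = b ∧ ∀ b' g', (0 + 1, b', g') ∈ V (0 + 1, b, g) →
      (q (0 + 1, b, g)).2.1 = b' := fun b g => by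
    have : ∀ b' g', (0 + 1, b', g') ∈ V (0 + 1, b, g) → (q (0 + 1, b, g)).2.1 = b' := fun b' g' h => by
      rcases h₃ _ h with ⟨-, h, -⟩ | ⟨-, h, -⟩
      exacts [h.symm, by simp at h]
    exact ⟨this b g (h₂ _ (sys.mem _ _)), this⟩
  refine ⟨i, x, infinite_of_injOn_mapsTo (f := fun b => V (0 + 1, b, g b)) (fun b _ b' _ h => ?_)
    (fun b hb => ⟨g₁ b hb ▸ h₁ _, h₂ _ (g₂ b hb)⟩) hi⟩
  exact (e b _).1.symm.trans ((e b _).2 b' (g b') (by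
    rw [show V (0 + 1, b, g b) = _ from h]; exact h₂ _ (sys.mem _ _)))

end Dat

theorem example_of_ih (h : IH) : ∃ (X : Type) (_ : TopologicalSpace X), T3Space X ∧ #X = ℵ₁ ∧
    SigmaLC X ∧ ¬ CMetacompact X ∧ ¬ SigmaDisj X := by
  obtain ⟨D, hD⟩ := exists_dat h
  have S := Dat.sys (D := D)
  let := S.top
  refine ⟨D.X, S.top, S.good.1, Dat.card, S.good.2, fun H => ?_, fun ⟨B, hB, H⟩ => ?_⟩
  · obtain ⟨R, h₁, h₂, h₃⟩ := H (range fun j => {p | p.1 ≤ j}) (countable_range _) (by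
      rintro _ ⟨j, rfl⟩ p hp
      refine ⟨0, ?_⟩
      rintro x (⟨h₁, -⟩ | ⟨-, h₁, -⟩) <;> simp_all)
      (eq_univ_of_forall fun p => ⟨_, ⟨p.1, rfl⟩, le_refl p.1⟩)
    have : ∀ p, ∃ V ∈ R, ∃ n, D.N p n ⊆ V := fun p => by
      obtain ⟨V, hV, hp⟩ : p ∈ ⋃₀ R := h₂ ▸ mem_univ p
      exact ⟨V, hV, (h₁ V hV).1 p hp⟩
    choose V hV κ hκ using this
    have : ∀ U, ∃ j, U ∈ R → ∀ p ∈ U, p.1 ≤ j := fun U => by
      by_cases h : U ∈ R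
      · obtain ⟨-, _, ⟨j, rfl⟩, k⟩ := h₁ U h
        exact ⟨j, fun _ => k⟩
      · exact ⟨0, fun h' => absurd h' h⟩
    choose i hi using this
    obtain ⟨x, -, h⟩ := Dat.master (J := Set.univ) (fun b l => ⟨b, rfl, fun _ _ => hD _ _⟩)
      (fun _ => κ) fun _ => κ
    obtain ⟨j, hj⟩ := ((h₃ x).image i).bddAbove
    obtain ⟨_, h⟩ := h j trivial
    obtain ⟨b, g, -, hg⟩ := h.nonempty
    exact Nat.not_succ_le_self j ((hi _ (hV _) _ (hκ _ (S.mem _ _))).trans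
      (hj ⟨_, ⟨hV _, hκ _ hg⟩, rfl⟩))
  · obtain ⟨j, x, hx⟩ := Dat.no_ref (fun b l => ⟨b, rfl, hD _ _⟩) B fun p => by
      obtain ⟨V, hV, hp, k⟩ := hB.exists_subset_of_mem_open (S.mem p 0) (S.op p 0)
      obtain ⟨j, hj⟩ := mem_iUnion.1 hV
      exact ⟨j, V, hj, hB.isOpen hV p hp, p, k⟩
    exact hx (Set.Subsingleton.finite fun U hU V hV => by
      by_contra e
      exact Set.disjoint_left.1 (H j hU.1 hV.1 e) hU.2 hV.2)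

theorem example_perf (h : IH) : ∃ (X : Type) (_ : TopologicalSpace X), T3Space X ∧ #X = ℵ₁ ∧
    SigmaLC X ∧ Perf X ∧ ¬ Metacompact X := by
  obtain ⟨D, lv, h₁, h₂⟩ := exists_dat' h
  have S := Dat.sys (D := D)
  let := S.top
  refine ⟨D.X, S.top, S.good.1, Dat.card, S.good.2, fun F hF => ?_, fun H => ?_⟩
  · refine isGδ_iff_eq_iInter_nat.2 ⟨fun n => ⋃ p ∈ F, D.N p n, fun n =>
      isOpen_biUnion fun p _ => S.op p n, Subset.antisymm (fun p hp => mem_iInter.2 fun n =>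
        mem_biUnion hp (S.mem p n)) fun x hx => by_contra fun hx' => ?_⟩
    obtain ⟨n, hn⟩ := hF.isOpen_compl x hx'
    obtain ⟨p, hp, h⟩ := mem_iUnion₂.1 (mem_iInter.1 hx (max n (D.k (lv x.2.1) + 1)))
    rcases h with ⟨k₁, k₂, k₃⟩ | ⟨-, -, l, k⟩
    · exact hn (.inl ⟨k₁.symm, k₂.symm, fun i hi =>
        (k₃ i (hi.trans_le (le_max_left _ _))).symm⟩) hp
    · exact Nat.not_succ_le_self _ (h₁ _ _ k.h₀ ▸ (le_max_right _ _).trans k.h₄)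
  · obtain ⟨R, k₁, k₂, k₃⟩ := H (range (D.N · 0)) (by rintro _ ⟨p, rfl⟩; exact S.op p 0)
      (eq_univ_of_forall fun p => ⟨_, ⟨p, rfl⟩, S.mem p 0⟩)
    obtain ⟨-, x, hx⟩ := Dat.no_ref h₂ (fun _ => R) fun p => by
      obtain ⟨V, hV, hp⟩ : p ∈ ⋃₀ R := k₂ ▸ mem_univ p
      obtain ⟨a₁, _, ⟨q, rfl⟩, a₂⟩ := k₁ V hV
      exact ⟨0, V, hV, a₁ p hp, q, a₂⟩
    exact hx (k₃ x)

end Pool.Agent.MP_5a4599_gt.K
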