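import Pool.Agent.MP_5a4599_gt.K.Base

/- Consequences of the failure of interval hitting. -/

set_option autoImplicit false

namespace Pool.Agent.MP_5a4599_gt.K

open Set Filter Cardinal TopologicalSpace Topology

variable {X : Type} [TopologicalSpace X]

/-- An increasing base together with disjoint open families that code it. -/
structure Key (L : ℕ → Set (Set X)) (G : ℕ → W → Set X) (cd : ℕ → W → Set X → ℕ) : Prop where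
  base : IsTopologicalBasis (⋃ n, L n)
  mono : Monotone L
  op : ∀ m d, IsOpen (G m d)
  uniq : ∀ m d d' x, x ∈ G m d → x ∈ G m d' → d = d'
  often : ∀ x N, ∃ m d, N ≤ m ∧ x ∈ G m d
  inj : ∀ m d, InjOn (cd m d) {B ∈ L m | (B ∩ G m d).Nonempty}

theorem exists_key (h : ¬ IH) (rk : X ≃ W) (hX : SigmaLC X) : ∃ L G cd, Key (X := X) L G cd := by
  classical
  obtain ⟨B₀, hB₀, hl₀⟩ := hX
  obtain ⟨L, base, mono, loc⟩ : ∃ L : ℕ → Set (Set X), IsTopologicalBasis (⋃ n, L n) ∧ Monotone L ∧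
      ∀ n x, ∃ U ∈ 𝓝 x, {V ∈ L n | (V ∩ U).Nonempty}.Countable := by
    refine ⟨accumulate B₀, by rwa [iUnion_accumulate], monotone_accumulate, fun n x => ?_⟩
    choose U hU hU' using fun k => hl₀ k x
    refine ⟨⋂ k ∈ Iic n, U k, (biInter_mem (finite_Iic n)).2 fun k _ => hU k,
      (countable_iUnion hU').mono fun V hV => ?_⟩
    obtain ⟨k, hk, h₁⟩ := mem_accumulate.1 hV.1
    exact mem_iUnion.2 ⟨k, h₁, hV.2.mono (inter_subset_inter_right _ (biInter_subset_of_mem hk))⟩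
  obtain ⟨b₀, -, hb₀⟩ := wellFounded_lt.has_min (Set.univ : Set W) univ_nonempty
  have : ∀ V : Set X, ∃ a, ∀ z ∈ V, rk.symm a ∈ V := fun V => by
    by_cases h : V.Nonempty
    · exact ⟨rk h.some, fun _ _ => by simpa using h.some_mem⟩
    · exact ⟨b₀, fun z hz => absurd ⟨z, hz⟩ h⟩
  choose mn hmn using this
  have ct : ∀ a, {V | (∃ k, V ∈ L k) ∧ V.Nonempty ∧ mn V ≤ a}.Countable := fun a => by
    choose U hU hU' using loc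
    refine ((ct_Iic a).biUnion fun b _ => countable_iUnion fun k => hU' k (rk.symm b)).mono ?_
    rintro V ⟨⟨k, hk⟩, ⟨z, hz⟩, h₁⟩
    exact mem_biUnion h₁ (mem_iUnion.2 ⟨k, hk, _, hmn V z hz, mem_of_mem_nhds (hU _ _)⟩)
  let Sm : Set X → ℕ → Prop := fun V n =>
    (∃ k, V ∈ L k) ∧ {B ∈ L n | (B ∩ V).Nonempty}.Countable
  have Sm_op : ∀ V n, Sm V n → IsOpen V := fun V n h => base.isOpen (mem_iUnion.2 h.1)
  have Sm_ex : ∀ x n, ∃ V, (Sm V n ∧ x ∈ V) ∧ ∀ V', Sm V' n → x ∈ V' → mn V ≤ mn V' := by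
    intro x n
    obtain ⟨U, hU, h₁⟩ := loc n x
    obtain ⟨V, h₂, h₃, h₄⟩ := base.mem_nhds_iff.1 hU
    obtain ⟨_, ⟨V, h₅, rfl⟩, hmin⟩ := wellFounded_lt.has_min (mn '' {V | Sm V n ∧ x ∈ V})
      ⟨_, V, ⟨⟨mem_iUnion.1 h₂, h₁.mono fun B hB =>
        And.intro hB.1 (hB.2.mono (inter_subset_inter_right _ h₄))⟩, h₃⟩, rfl⟩
    exact ⟨V, h₅, fun V' k₁ k₂ => not_lt.1 (hmin _ ⟨V', ⟨k₁, k₂⟩, rfl⟩)⟩
  choose Vs hVs hmin using Sm_ex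
  have r_mono : ∀ x n n', n ≤ n' → mn (Vs x n) ≤ mn (Vs x n') := fun x n n' h =>
    hmin x n _ ⟨(hVs x n').1.1, (hVs x n').1.2.mono fun B hB => And.intro (mono h hB.1) hB.2⟩
      (hVs x n').2
  have : ∀ a, ∃ b, ∀ V n B, Sm V n → mn V ≤ a → B ∈ L n → (B ∩ V).Nonempty → mn B < b := by
    intro a
    obtain ⟨b, hb⟩ := bdd (((ct a).biUnion fun V _ => countable_iUnion fun n =>
        countable_iUnion fun h : Sm V n => h.2).image mn)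
    exact ⟨b, fun V n B h₁ h₂ h₃ h₄ => hb _ ⟨B, mem_iUnion₂.2 ⟨V,
      ⟨h₁.1, h₄.mono inter_subset_right, h₂⟩, mem_iUnion₂.2 ⟨n, h₁, h₃, h₄⟩⟩, rfl⟩⟩
  choose H hH using this
  have hR : ∀ c, (∀ a < c, H a < c) → ∀ V n B, Sm V n → mn V < c → B ∈ L n →
      (B ∩ V).Nonempty → mn B < c := fun c hc V n B h₁ h₂ h₃ h₄ =>
    (hH _ V n B h₁ le_rfl h₃ h₄).trans (hc _ h₂)
  let Sp : X → ℕ → W → Prop := fun x n a =>
    ∀ᶠ z in 𝓝 x, ∀ V c, Sm V n → (∀ a < c, H a < c) → mn V < c → c ≤ a → z ∉ V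
  have : ∀ x n, ∃ a, a ≤ mn (Vs x n) ∧ Sp x n a ∧ ∀ k ≤ n, Sp x n (mn (Vs x k)) →
      mn (Vs x k) ≤ a := fun x n => by
    by_cases h : ∃ k ≤ n, Sp x n (mn (Vs x k))
    · obtain ⟨k, h₁, h₂⟩ := h
      exact ⟨_, r_mono _ _ _ (Nat.findGreatest_le _),
        Nat.findGreatest_spec (P := fun k => Sp x n (mn (Vs x k))) h₁ h₂,
        fun k h₃ h₄ => r_mono _ _ _ (Nat.le_findGreatest h₃ h₄)⟩
    · exact ⟨b₀, not_lt.1 (hb₀ _ trivial), .of_forall fun z V c _ _ h₁ h₂ =>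
        absurd (h₁.trans_le h₂) (hb₀ _ trivial), fun k h₁ h₂ => absurd ⟨k, h₁, h₂⟩ h⟩
  choose A hA₁ hA₂ hA₃ using this
  obtain ⟨C, hC, hC'⟩ := star h (fun x => A (rk.symm x)) (fun x n => mn (Vs (rk.symm x) n))
    (fun x => hA₁ _) fun x n => by
      obtain ⟨k, hk⟩ := (hVs (rk.symm x) n).1.1
      refine ⟨max n k, fun n' hn' => hA₃ _ n' n (le_of_max_le_left hn') ?_⟩
      filter_upwards [(Sm_op _ _ (hVs (rk.symm x) n).1).mem_nhds (hVs _ n).2]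
        with z hz V c h₁ h₂ h₃ h₄ h₅
      exact (hR c h₂ V n' _ h₁ h₃ (mono (le_of_max_le_right hn') hk) ⟨z, hz, h₅⟩).not_ge h₄
  let G : ℕ → W → Set X := fun m d => {x | (d ∈ C ∧ ∀ a < d, H a < d) ∧
    (∃ V, Sm V m ∧ x ∈ V ∧ mn V < d) ∧
      ∀ᶠ z in 𝓝 x, ∀ V c, Sm V m → (c ∈ C ∧ ∀ a < c, H a < c) → mn V < c → c < d → z ∉ V}
  have : ∀ m d, ∃ f : Set X → ℕ, InjOn f {B ∈ L m | (B ∩ G m d).Nonempty} := fun m d => by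
    refine countable_iff_exists_injOn.1 ((ct d).mono ?_)
    rintro B ⟨h₁, x, h₂, h₃, ⟨V, h₄, h₅, h₆⟩, -⟩
    exact ⟨⟨m, h₁⟩, ⟨x, h₂⟩, (hR d h₃.2 V m B h₄ h₆ h₁ ⟨x, h₂, h₅⟩).le⟩
  choose cd hcd using this
  refine ⟨L, G, cd, base, mono, fun m d => isOpen_iff_mem_nhds.2 ?_, ?_, fun x N => ?_, hcd⟩
  · rintro x ⟨h₁, ⟨V, h₂, h₃, h₄⟩, h₅⟩
    filter_upwards [(Sm_op _ _ h₂).mem_nhds h₃, h₅.eventually_nhds] with y k₁ k₂
    exact ⟨h₁, ⟨V, h₂, k₁, h₄⟩, k₂⟩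
  · rintro m d d' x ⟨h₁, ⟨V, h₂, h₃, h₄⟩, h₅⟩ ⟨k₁, ⟨V', k₂, k₃, k₄⟩, k₅⟩
    rcases lt_trichotomy d d' with h | h | h
    exacts [absurd h₃ (k₅.self_of_nhds V d h₂ h₁ h₄ h), h,
      absurd k₃ (h₅.self_of_nhds V' d' k₂ k₁ k₄ h)]
  · obtain ⟨n, hn, h⟩ := hC' (rk x) N
    simp only [Equiv.symm_apply_apply] at h
    obtain ⟨d, ⟨h₁, h₂⟩, hd⟩ := wellFounded_lt.has_min
      {d | (d ∈ C ∧ ∀ a < d, H a < d) ∧ mn (Vs x n) < d} (club_gt (clo1 hC H) _)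
    refine ⟨n, d, hn, h₁, ⟨_, (hVs x n).1, (hVs x n).2, h₂⟩, ?_⟩
    filter_upwards [hA₂ x n] with z hz V c k₁ k₂ k₃ k₄
    exact hz V c k₁ k₂.2 k₃ (not_lt.1 fun k₅ => hd c ⟨k₂, h c k₂.1 k₅⟩ k₄)

variable {L : ℕ → Set (Set X)} {G : ℕ → W → Set X} {cd : ℕ → W → Set X → ℕ}

theorem Key.disj (K : Key L G cd) : SigmaDisj X := by
  refine ⟨fun n => {V | ∃ d, ∃ B ∈ L n.unpair.1, cd n.unpair.1 d B = n.unpair.2 ∧
    V = B ∩ G n.unpair.1 d}, isTopologicalBasis_of_isOpen_of_nhds ?_ ?_, fun n => ?_⟩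
  · rintro V ⟨_, ⟨n, rfl⟩, d, B, h₁, -, rfl⟩
    exact (K.base.isOpen (mem_iUnion.2 ⟨_, h₁⟩)).inter (K.op _ _)
  · intro x U hx hU
    obtain ⟨B, h₁, h₂, h₃⟩ := K.base.exists_subset_of_mem_open hx hU
    obtain ⟨k, hk⟩ := mem_iUnion.1 h₁
    obtain ⟨m, d, hm, hd⟩ := K.often x k
    exact ⟨B ∩ G m d, mem_iUnion.2 ⟨Nat.pair m (cd m d B), d, B, by simpa using K.mono hm hk,
      by simp, by simp⟩, ⟨h₂, hd⟩, inter_subset_left.trans h₃⟩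
  · rintro _ ⟨d, B, h₁, h₂, rfl⟩ _ ⟨d', B', k₁, k₂, rfl⟩ e
    refine Set.disjoint_left.2 fun x hx hx' => e ?_
    obtain rfl := K.uniq _ _ _ _ hx.2 hx'.2
    rw [K.inj _ d ⟨h₁, x, hx⟩ ⟨k₁, x, hx'⟩ (h₂.trans k₂.symm)]

theorem Key.perf [RegularSpace X] (K : Key L G cd) (hB : BigB) (rk : X ≃ W) : Perf X := by
  intro F hF
  have : ∀ x, ∃ B, x ∉ F → (∃ k, B ∈ L k) ∧ x ∈ B ∧ ∀ y ∈ F, Bᶜ ∈ 𝓝 y := fun x => by
    by_cases h : x ∈ F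
    · exact ⟨∅, fun h' => absurd h h'⟩
    obtain ⟨t, h₁, h₂, h₃⟩ := exists_mem_nhds_isClosed_subset (hF.isOpen_compl.mem_nhds h)
    obtain ⟨B, h₄, h₅, h₆⟩ := K.base.mem_nhds_iff.1 h₁
    exact ⟨B, fun _ => ⟨mem_iUnion.1 h₄, h₅, fun y hy => mem_of_superset
      (h₂.isOpen_compl.mem_nhds fun h' => h₃ h' hy) (compl_subset_compl.2 h₆)⟩⟩
  choose Bs hBs using this
  have : ∀ n x, ∃ d, ∀ d', x ∈ G n d' → d = d' := fun n x => by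
    by_cases h : ∃ d, x ∈ G n d
    · exact h.imp fun d h d' h' => K.uniq _ _ _ _ h h'
    · exact ⟨rk x, fun d' h' => absurd ⟨d', h'⟩ h⟩
  choose dd hdd using this
  obtain ⟨φ, hφ⟩ := hB fun a n => cd n (dd n (rk.symm a)) (Bs (rk.symm a))
  refine isGδ_iff_eq_iInter_nat.2 ⟨fun j => interior
    {x | ¬ (x ∉ F ∧ Bs x ∈ L j ∧ ∀ n, j ≤ n → cd n (dd n x) (Bs x) ≤ φ n)},
    fun _ => isOpen_interior, Subset.antisymm (fun y hy => mem_iInter.2 fun j => ?_) fun x hx => ?_⟩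
  · obtain ⟨m, d, hm, hG⟩ := K.often y j
    have fin : {B | ((B ∈ L m ∧ (B ∩ G m d).Nonempty) ∧ cd m d B ≤ φ m) ∧ Bᶜ ∈ 𝓝 y}.Finite :=
      .of_injOn (f := cd m d) (t := Iic (φ m)) (fun B hB => hB.1.2)
        ((K.inj m d).mono fun B hB => hB.1.1) (finite_Iic _)
    rw [mem_interior_iff_mem_nhds]
    filter_upwards [(K.op m d).mem_nhds hG, (biInter_mem fin).2 fun B hB => hB.2]
      with z h₁ h₂ ⟨h₃, h₄, h₅⟩
    obtain ⟨-, k₁, k₂⟩ := hBs z h₃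
    exact mem_iInter₂.1 h₂ _ ⟨⟨⟨K.mono hm h₄, z, k₁, h₁⟩, hdd m z d h₁ ▸ h₅ m hm⟩, k₂ y hy⟩ k₁
  · by_contra h
    obtain ⟨k, hk⟩ := (hBs x h).1
    obtain ⟨N, hN⟩ := eventually_atTop.1 (hφ (rk x))
    exact interior_subset (mem_iInter.1 hx (max k N)) ⟨h, K.mono (le_max_left _ _) hk,
      fun n hn => by simpa using hN n (le_of_max_le_right hn)⟩

theorem cm_of (hP : Perf X) : CMetacompact X := by
  classical
  intro C hC ho cov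
  obtain rfl | hne := C.eq_empty_or_nonempty
  · exact ⟨∅, by simp, cov, by simp⟩
  obtain ⟨U, rfl⟩ := hC.exists_eq_range hne
  choose f hf e using fun j => isGδ_iff_eq_iInter_nat.1 (hP _ (ho _ ⟨j, rfl⟩).isClosed_compl)
  have cv : ∀ x, ∃ j, x ∈ U j := fun x => by
    obtain ⟨_, ⟨j, rfl⟩, hx⟩ : x ∈ ⋃₀ range U := cov ▸ mem_univ x
    exact ⟨j, hx⟩
  refine ⟨range fun j => U j ∩ ⋂ i ∈ Iio j, ⋂ k ∈ Iio j, f i k, ?_,
    eq_univ_of_forall fun x => ?_, fun x => ?_⟩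
  · rintro _ ⟨j, rfl⟩
    exact ⟨(ho _ ⟨j, rfl⟩).inter ((finite_Iio j).isOpen_biInter fun i _ =>
      (finite_Iio j).isOpen_biInter fun k _ => hf i k), _, ⟨j, rfl⟩, inter_subset_left⟩
  · exact ⟨_, ⟨_, rfl⟩, Nat.find_spec (cv x), mem_iInter₂.2 fun i hi => mem_iInter₂.2 fun k _ =>
      mem_iInter.1 (e i ▸ (Nat.find_min (cv x) hi :)) k⟩
  · obtain ⟨i, hi⟩ := cv x
    obtain ⟨k, hk⟩ : ∃ k, x ∉ f i k := by
      by_contra! H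
      exact (e i ▸ mem_iInter.2 H : x ∈ (U i)ᶜ) hi
    refine ((finite_Iic (max i k)).image fun j => U j ∩ ⋂ i ∈ Iio j, ⋂ k ∈ Iio j, f i k).subset ?_
    rintro _ ⟨⟨j, rfl⟩, -, h₃⟩
    refine ⟨j, mem_Iic.2 (not_lt.1 fun h => hk ?_), rfl⟩
    exact mem_iInter₂.1 (mem_iInter₂.1 h₃ i (lt_of_le_of_lt (le_max_left _ _) h)) k
      (lt_of_le_of_lt (le_max_right _ _) h)

theorem metacompact_of (hP : CMetacompact X) (hD : SigmaDisj X) : Metacompact X := by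
  obtain ⟨B, hB, hd⟩ := hD
  intro C hC cov
  have ho : ∀ j V, V ∈ B j → IsOpen V := fun j V h => hB.isOpen (mem_iUnion.2 ⟨j, h⟩)
  obtain ⟨R, h₁, h₂, h₃⟩ := hP (range fun j => ⋃₀ {V ∈ B j | ∃ U ∈ C, V ⊆ U}) (countable_range _)
    (by rintro _ ⟨j, rfl⟩; exact isOpen_sUnion fun V h => ho j V h.1)
    (eq_univ_of_forall fun x => by
      obtain ⟨U, hU, hx⟩ : x ∈ ⋃₀ C := cov ▸ mem_univ x
      obtain ⟨V, h₁, h₂, h₃⟩ := hB.exists_subset_of_mem_open hx (hC U hU)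
      obtain ⟨j, hj⟩ := mem_iUnion.1 h₁
      exact ⟨_, ⟨j, rfl⟩, V, ⟨hj, U, hU, h₃⟩, h₂⟩)
  have : ∀ V, ∃ j, V ∈ R → V ⊆ ⋃₀ {V ∈ B j | ∃ U ∈ C, V ⊆ U} := fun V => by
    by_cases h : V ∈ R
    · obtain ⟨-, _, ⟨j, rfl⟩, k⟩ := h₁ V h
      exact ⟨j, fun _ => k⟩
    · exact ⟨0, fun h' => absurd h' h⟩
  choose j hj using this
  refine ⟨{Y | ∃ V ∈ R, ∃ A ∈ B (j V), (∃ U ∈ C, A ⊆ U) ∧ Y = A ∩ V}, ?_,
    eq_univ_of_forall fun x => ?_, fun x => ?_⟩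
  · rintro _ ⟨V, k₁, A, k₂, ⟨U, k₃, k₄⟩, rfl⟩
    exact ⟨(ho _ A k₂).inter (h₁ V k₁).1, U, k₃, inter_subset_left.trans k₄⟩
  · obtain ⟨V, k₁, k₂⟩ : x ∈ ⋃₀ R := h₂ ▸ mem_univ x
    obtain ⟨A, k₃, k₄⟩ := hj V k₁ k₂
    exact ⟨_, ⟨V, k₁, A, k₃.1, k₃.2, rfl⟩, k₄, k₂⟩
  · refine ((h₃ x).biUnion fun V _ => (Set.Subsingleton.finite
      (s := {A ∈ B (j V) | x ∈ A}) fun A hA A' hA' => ?_).image (· ∩ V)).subset ?_
    · by_contra e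
      exact Set.disjoint_left.1 (hd _ hA.1 hA'.1 e) hA.2 hA'.2
    · rintro _ ⟨⟨V, k₁, A, k₂, -, rfl⟩, k₃, k₄⟩
      exact mem_biUnion (x := V) ⟨k₁, k₄⟩ ⟨A, ⟨k₂, k₃⟩, rfl⟩

theorem perf_of [RegularSpace X] (hM : Metacompact X) (hX : SigmaLC X) : Perf X := by
  obtain ⟨B, hB, hl⟩ := hX
  intro F hF
  choose U hU hc using hl
  choose R h₁ h₂ h₃ using fun n => hM (range fun x => interior (U n x))
    (by rintro _ ⟨x, rfl⟩; exact isOpen_interior)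
    (eq_univ_of_forall fun x => ⟨_, ⟨x, rfl⟩, mem_interior_iff_mem_nhds.2 (hU n x)⟩)
  have : ∀ n V, ∃ c : Set X → ℕ, V ∈ R n → InjOn c {A ∈ B n | (A ∩ V).Nonempty} := fun n V => by
    by_cases h : V ∈ R n
    · obtain ⟨-, _, ⟨x, rfl⟩, k⟩ := h₁ n V h
      exact (countable_iff_exists_injOn.1 ((hc n x).mono fun A hA => And.intro hA.1 (hA.2.mono
        (inter_subset_inter_right _ (k.trans interior_subset))))).imp fun c h _ => h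
    · exact ⟨fun _ => 0, fun h' => absurd h' h⟩
  choose cd hcd using this
  refine isGδ_iff_eq_iInter_nat.2 ⟨fun j => interior {x | ∀ A ∈ B j.unpair.1, (∀ y ∈ F, Aᶜ ∈ 𝓝 y) →
    x ∈ A → ∃ V ∈ R j.unpair.1, x ∈ V ∧ j.unpair.2 < cd j.unpair.1 V A},
    fun _ => isOpen_interior, Subset.antisymm (fun y hy => mem_iInter.2 fun j => ?_) fun x hx => ?_⟩
  · obtain ⟨V, hV, hy'⟩ : y ∈ ⋃₀ R j.unpair.1 := h₂ _ ▸ mem_univ y
    have fin : {A | ((A ∈ B j.unpair.1 ∧ (A ∩ V).Nonempty) ∧ cd j.unpair.1 V A ≤ j.unpair.2) ∧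
        Aᶜ ∈ 𝓝 y}.Finite := .of_injOn (f := cd j.unpair.1 V) (t := Iic j.unpair.2)
      (fun A hA => hA.1.2) ((hcd _ V hV).mono fun A hA => hA.1.1) (finite_Iic _)
    rw [mem_interior_iff_mem_nhds]
    filter_upwards [(h₁ _ V hV).1.mem_nhds hy', (biInter_mem fin).2 fun A hA => hA.2]
      with z k₁ k₂ A k₃ k₄ k₅
    exact ⟨V, hV, k₁, not_le.1 fun k₆ => mem_iInter₂.1 k₂ A ⟨⟨⟨k₃, z, k₅, k₁⟩, k₆⟩, k₄ y hy⟩ k₅⟩
  · by_contra h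
    obtain ⟨t, k₁, k₂, k₃⟩ := exists_mem_nhds_isClosed_subset (hF.isOpen_compl.mem_nhds h)
    obtain ⟨A, k₄, k₅, k₆⟩ := hB.mem_nhds_iff.1 k₁
    obtain ⟨n, hn⟩ := mem_iUnion.1 k₄
    obtain ⟨i, hi⟩ := ((h₃ n x).image fun V => cd n V A).bddAbove
    have := interior_subset (mem_iInter.1 hx (Nat.pair n i))
    simp only [Nat.unpair_pair] at this
    obtain ⟨V, hV, k₇, k₈⟩ := this A hn (fun y hy => mem_of_superset
      (k₂.isOpen_compl.mem_nhds fun h' => k₃ h' hy) (compl_subset_compl.2 k₆)) k₅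
    exact k₈.not_ge (hi ⟨V, ⟨hV, k₇⟩, rfl⟩)

theorem all_key (h : ¬ IH) (hX : #X = ℵ₁) (hl : SigmaLC X) :
    ∃ (_ : X ≃ W) (L G cd : _), Key (X := X) L G cd :=
  let ⟨rk⟩ := Cardinal.eq.1 (hX.trans mk_W.symm)
  ⟨rk, exists_key h rk hl⟩

end Pool.Agent.MP_5a4599_gt.K
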