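import Pool.Agent.MP_5a4599_gt.K.Ex
import Pool.Agent.MP_5a4599_gt.K.Pos

/- The equivalences. -/

set_option autoImplicit false

namespace Pool.Agent.MP_5a4599_gt.K

open Cardinal

theorem not_ih_of_cm (H : All CMetacompact) : ¬ IH := fun h => by
  obtain ⟨X, _, _, k₁, k₂, k₃, -⟩ := example_of_ih h
  exact k₃ (H X k₁ k₂)

theorem disj_iff : All SigmaDisj ↔ ¬ IH := by
  refine ⟨fun H h => ?_, fun h X _ _ k₁ k₂ => let ⟨_, _, _, _, K⟩ := all_key h k₁ k₂; K.disj⟩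
  obtain ⟨X, _, _, k₁, k₂, -, k₃⟩ := example_of_ih h
  exact k₃ (H X k₁ k₂)

theorem main_tfae : List.TFAE [All Perf, All Metacompact, All CMetacompact,
    ¬ IH ∧ All fun X _ => SigmaDisj X → Perf X] := by
  tfae_have h₁ : 1 → 3 := fun H X _ _ k₁ k₂ => cm_of (H X k₁ k₂)
  tfae_have 3 → 2 := fun H X _ _ k₁ k₂ =>
    metacompact_of (H X k₁ k₂) (disj_iff.2 (not_ih_of_cm H) X k₁ k₂)
  tfae_have 2 → 1 := fun H X _ _ k₁ k₂ => perf_of (H X k₁ k₂) k₂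
  tfae_have 1 → 4 := fun H => ⟨not_ih_of_cm (h₁ H), fun X _ _ k₁ k₂ _ => H X k₁ k₂⟩
  tfae_have 4 → 1 := fun H X _ _ k₁ k₂ => H.2 X k₁ k₂ (disj_iff.2 H.1 X k₁ k₂)
  tfae_finish

theorem hitting_tfae : List.TFAE [¬ IH, All SigmaDisj,
    All fun X _ => CMetacompact X → Metacompact X, All fun X _ => Perf X → Metacompact X] := by
  tfae_have 1 → 2 := disj_iff.2
  tfae_have 2 → 3 := fun H X _ _ k₁ k₂ h => metacompact_of h (H X k₁ k₂)
  tfae_have 3 → 4 := fun H X _ _ k₁ k₂ h => H X k₁ k₂ (cm_of h)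
  tfae_have 4 → 1 := fun H h => by
    obtain ⟨X, _, _, k₁, k₂, k₃, k₄⟩ := example_perf h
    exact k₄ (H X k₁ k₂ k₃)
  tfae_finish

theorem perf_iff_of_b (hB : BigB) : All Perf ↔ ¬ KA := by
  refine ⟨fun H h => not_ih_of_cm (fun X _ _ k₁ k₂ => cm_of (H X k₁ k₂)) (ih_of_ka h),
    fun h X _ _ k₁ k₂ => ?_⟩
  obtain ⟨rk, _, _, _, K⟩ := all_key (fun h' => h (ka_of_ih hB h')) k₁ k₂
  exact K.perf hB rk

theorem not_perf_of_d (h : SmallD) : ¬ All Perf := fun H =>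
  not_ih_of_cm (fun X _ _ k₁ k₂ => cm_of (H X k₁ k₂)) (ih_of_d h)

end Pool.Agent.MP_5a4599_gt.K
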