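import Pool.Agent.MP_5a4599_gt.K.Sys

/- A space from a small non-meagre set. -/

set_option autoImplicit false

namespace Pool.Agent.MP_5a4599_gt.K

open Set Filter Cardinal TopologicalSpace Topology

noncomputable section

instance : OrderBot W := WellFoundedLT.toOrderBot W

/-- Bottom for a while, then strictly increasing. -/
def Inc (p : ℕ → W) : Prop :=
  Monotone p ∧ (∀ i j, i < j → p j ≠ ⊥ → p i < p j) ∧ ∃ i, p i ≠ ⊥

theorem Inc.ne {p : ℕ → W} (h : Inc p) {i j : ℕ} (hi : p i ≠ ⊥) (hj : i ≤ j) : p j ≠ ⊥ :=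
  fun e => hi (le_bot_iff.1 (e ▸ h.1 hj))

theorem Inc.big {p : ℕ → W} (h : Inc p) (n : ℕ) : ∃ m, n < m ∧ p m ≠ ⊥ :=
  let ⟨i, hi⟩ := h.2.2
  ⟨max i (n + 1), Nat.lt_of_succ_le (le_max_right _ _), h.ne hi (le_max_left _ _)⟩

variable (e : W → ℕ → W)

/-- The basic sets. -/
def NN (p : ℕ → W) (n : ℕ) : Set (ℕ → W) := {q | p n ≠ ⊥ → ∀ i ≤ n,
  (p i ≠ ⊥ → q i = p i) ∧ (p i = ⊥ → q i ≠ ⊥ → ∀ i' ≤ n, ∀ t < n, q i ≠ e (p i') t)}

variable {e}

theorem NN_congr {p p' q q' : ℕ → W} {n : ℕ} (hp : ∀ i ≤ n, p' i = p i) (hq : ∀ i ≤ n, q' i = q i)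
    (h : q ∈ NN e p n) : q' ∈ NN e p' n := fun h₁ i hi => by
  rw [hp n le_rfl] at h₁
  rw [hp i hi, hq i hi]
  exact ⟨(h h₁ i hi).1, fun h₂ h₃ i' hi' => hp i' hi' ▸ (h h₁ i hi).2 h₂ h₃ i' hi'⟩

theorem sysN (he : ∀ b a, a < b → ∃ m, e b m = a) {Y : Set (ℕ → W)} (hY : ∀ p ∈ Y, Inc p) :
    Sys fun (p : Y) n => Subtype.val ⁻¹' NN e p.1 n where
  mem p n := fun _ i _ => ⟨fun _ => rfl, fun h h' => absurd h h'⟩
  anti p n m h q hq := fun h₁ i hi =>
    have := hq ((hY _ p.2).ne h₁ h) i (hi.trans h)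
    ⟨this.1, fun h₂ h₃ i' hi' t ht => this.2 h₂ h₃ i' (hi'.trans h) t (ht.trans_le h)⟩
  op p n q h := by
    by_cases hp : p.1 n = ⊥
    · exact ⟨0, fun z _ h' => absurd hp h'⟩
    have h₁ := (h hp n le_rfl).1 hp
    have : ∀ a, ∃ m, a < q.1 n → e (q.1 n) m = a := fun a => by
      by_cases h : a < q.1 n
      exacts [(he _ a h).imp fun m hm _ => hm, ⟨0, fun h' => absurd h' h⟩]
    choose c hc using this
    obtain ⟨m, hm⟩ := (((finite_Iic n).prod (finite_Iio n)).image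
      fun z => c (e (p.1 z.1) z.2)).bddAbove
    refine ⟨max n (m + 1), fun z hz _ i hi => ?_⟩
    have hz := hz ((hY _ q.2).ne (h₁ ▸ hp) (le_max_left _ _))
    have k₁ := hz i (hi.trans (le_max_left _ _))
    have k₂ := h hp i hi
    refine ⟨fun k₃ => (k₁.1 (k₂.1 k₃ ▸ k₃)).trans (k₂.1 k₃), fun k₃ k₄ i' hi' t ht => ?_⟩
    by_cases k₅ : q.1 i = ⊥
    · intro k₆
      have k₇ : z.1 n = q.1 n := (hz n (le_max_left _ _)).1 (h₁ ▸ hp)
      refine k₁.2 k₅ k₄ n (le_max_left _ _) (c (e (p.1 i') t)) ((Nat.lt_succ_of_le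
        (hm ⟨(i', t), ⟨hi', ht⟩, rfl⟩)).trans_le (le_max_right _ _)) (k₆.trans (hc _ ?_).symm)
      rw [← k₆, ← k₇]
      exact (hY _ z.2).2.1 i n (hi.lt_of_ne fun e => hp (e ▸ k₃)) (k₇ ▸ h₁ ▸ hp)
    · exact k₁.1 k₅ ▸ k₂.2 k₃ k₅ i' hi' t ht
  cl p n q h := by
    obtain ⟨hp, h⟩ := Classical.not_imp.1 h
    obtain ⟨i, h⟩ := not_forall.1 h
    obtain ⟨hi, h⟩ := Classical.not_imp.1 h
    obtain ⟨m, hm, h₁⟩ := (hY _ q.2).big n
    by_cases hq : q.1 i = ⊥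
    · have h₂ : p.1 i ≠ ⊥ := fun h₂ => h ⟨fun h' => absurd h₂ h', fun _ h' => absurd hq h'⟩
      by_cases h₃ : p.1 i < q.1 m
      · obtain ⟨t, ht⟩ := he _ _ h₃
        refine ⟨max m (t + 1), fun z hz hz' => ?_⟩
        have k := (hz' hp i hi).1 h₂
        exact (hz ((hY _ q.2).ne h₁ (le_max_left _ _)) i ((hi.trans hm.le).trans
          (le_max_left _ _))).2 hq (k ▸ h₂) m (le_max_left _ _) t
            (Nat.lt_of_succ_le (le_max_right _ _)) (k.trans ht.symm)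
      · refine ⟨m, fun z hz hz' => h₃ ?_⟩
        have k := (hz h₁ m le_rfl).1 h₁
        rw [← (hz' hp i hi).1 h₂, ← k]
        exact (hY _ z.2).2.1 i m (hi.trans_lt hm) (k ▸ h₁)
    · exact ⟨m, fun z hz hz' => h ((hz h₁ i (hi.trans hm.le)).1 hq ▸ hz' hp i hi)⟩
  sep p q h := by
    by_contra! H
    have h₁ : ∀ i, p.1 i ≠ ⊥ → q.1 i = p.1 i := fun i hi => (H i hi i le_rfl).1 hi
    refine h (Subtype.ext (funext fun i => ?_))
    by_contra h₂
    have h₃ : p.1 i = ⊥ := by_contra fun h₃ => h₂ (h₁ i h₃).symm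
    obtain ⟨m, hm, h₄⟩ := (hY _ p.2).big i
    obtain ⟨t, ht⟩ := he (p.1 m) (q.1 i) (h₁ m h₄ ▸ (hY _ q.2).2.1 i m hm (h₁ m h₄ ▸ h₄))
    exact (H (max m (t + 1)) ((hY _ p.2).ne h₄ (le_max_left _ _)) i
      (hm.le.trans (le_max_left _ _))).2 h₃ (fun e => h₂ (h₃.trans e.symm)) m (le_max_left _ _) t
        (Nat.lt_of_succ_le (le_max_right _ _)) ht.symm
  lc n p := by
    obtain ⟨m, hm, h₁⟩ := (hY _ p.2).big n
    have := (ct_Iic (p.1 m)).to_subtype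
    refine ⟨m, (countable_range fun s : Fin (n + 1) → Iic (p.1 m) => (Subtype.val : Y → _) ⁻¹'
      NN e (fun i => if h : i < n + 1 then s ⟨i, h⟩ else ⊥) n).mono ?_⟩
    rintro _ ⟨⟨q, rfl⟩, z, hq, hp⟩
    have h₂ : q.1 n ≤ p.1 m := by
      by_cases h : q.1 n = ⊥
      · exact h ▸ bot_le
      · rw [← (hq h n le_rfl).1 h, ← (hp h₁ m le_rfl).1 h₁]
        exact (hY _ z.2).1 hm.le
    refine ⟨fun i => ⟨q.1 i, ((hY _ q.2).1 (Nat.le_of_lt_succ i.2)).trans h₂⟩, ?_⟩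
    ext x
    simp only [mem_preimage]
    constructor <;> refine NN_congr (fun i hi => ?_) fun _ _ => rfl <;> simp [Nat.lt_succ_of_le hi]

theorem root {E : W → Set W} (hE : ∀ b, (E b).Finite) :
    ∃ ρ, ∀ s : List W, (∀ x ∈ s, ρ < x) → ∀ a, ∃ b, a < b ∧ ∀ x ∈ s, x ∉ E b := by
  by_contra! H
  choose s hs a ha using H
  choose u hu using fun ρ => bdd (s ρ).finite_toSet.countable
  obtain ⟨b, hb⟩ := bdd_fun fun i : ℕ => a (u^[i] ⊥)
  choose x h₁ h₂ using fun i => ha _ b (hb i)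
  refine infinite_of_injective_forall_mem (strictMono_nat_of_lt_succ fun i => ?_).injective h₂
    (hE b)
  exact (hu _ _ (h₁ i)).trans (hs _ _ (Function.iterate_succ_apply' u i ⊥ ▸ h₁ (i + 1)))

variable (e)

/-- Decoding a sequence of naturals as an increasing sequence of ordinals. -/
def dec (d a : W) (f : ℕ → ℕ) : ℕ → W
  | 0 => a
  | i + 1 => max (e d (f i)) (Order.succ (dec d a f i))

/-- The points. -/
def pt (m : ℕ) (d a : W) (f : ℕ → ℕ) (i : ℕ) : W :=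
  if i < m then ⊥ else dec e d (Order.succ a) f (i - m)

variable {e}

theorem dec_mono (d a : W) (f : ℕ → ℕ) : StrictMono (dec e d a f) :=
  strictMono_nat_of_lt_succ fun _ => (Order.lt_succ _).trans_le (le_max_right _ _)

theorem dec_congr {d a : W} {f g : ℕ → ℕ} {n : ℕ} (h : ∀ i < n, f i = g i) :
    ∀ i ≤ n, dec e d a f i = dec e d a g i := fun i hi => by
  induction i with
  | zero => rfl
  | succ i ih => rw [dec, dec, h i hi, ih (Nat.le_of_succ_le hi)]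

theorem lt_pt {m i : ℕ} (h : m ≤ i) (d a : W) (f : ℕ → ℕ) : a < pt e m d a f i := by
  rw [pt, if_neg h.not_gt]
  exact (Order.lt_succ a).trans_le ((dec_mono d _ f).monotone (Nat.zero_le _))

theorem pt_inc (m : ℕ) (d a : W) (f : ℕ → ℕ) : Inc (pt e m d a f) := by
  have h : ∀ i j, i < j → m ≤ j → pt e m d a f i < pt e m d a f j := fun i j h hj => by
    by_cases hi : i < m
    · rw [pt, if_pos hi]
      exact bot_le.trans_lt (lt_pt hj d a f)
    · rw [pt, pt, if_neg hi, if_neg hj.not_gt]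
      exact dec_mono _ _ _ (by omega)
  refine ⟨monotone_nat_of_le_succ fun i => ?_, fun i j hij hj => h i j hij (not_lt.1 fun h' =>
    hj (if_pos h')), m, (lt_pt le_rfl d a f).ne_bot⟩
  by_cases hi : i < m
  · rw [pt, if_pos hi]
    exact bot_le
  · exact (h i _ i.lt_succ_self (by omega)).le

theorem generic {P : (ℕ → ℕ) → ℕ → Prop} (h₁ : ∀ f g n, (∀ i < n, g i = f i) → P f n → P g n)
    (h₂ : ∀ (f : ℕ → ℕ) n, ∃ g m, (∀ i < n, g i = f i) ∧ P g m) : {f | ∃ n, P f n} ∈ residual (ℕ → ℕ) := by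
  refine residual_of_dense_open (isOpen_iff_mem_nhds.2 fun f ⟨n, hn⟩ => mem_of_superset
    ((PiNat.isOpen_cylinder _ f n).mem_nhds (PiNat.self_mem_cylinder f n)) fun g hg =>
      ⟨n, h₁ f g n hg hn⟩) ((PiNat.isTopologicalBasis_cylinders _).dense_iff.2 ?_)
  rintro _ ⟨f, n, rfl⟩ -
  obtain ⟨g, m, h₃, h₄⟩ := h₂ f n
  exact ⟨g, h₃, m, h₄⟩

theorem masterN (he : ∀ b a, a < b → (∃ m, e b m = a) ∧ ∀ m, e b m < b) {S : Set (ℕ → ℕ)}
    (hS : ¬ IsMeagre S) (f₀ : ℕ → ℕ) (κ : ℕ → ℕ → W → ℕ) : ∃ d a, ∃ f ∈ S, ∀ j, ∃ m b,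
      pt e 0 d a f ∈ NN e (pt e (m + 1) b b f₀) (κ j m b) := by
  choose ρ hρ using fun p : ℕ × ℕ => root (E := fun b => (fun z : ℕ × ℕ =>
    e (pt e (p.2 + 1) b b f₀ z.1) z.2) '' (Iic (κ p.1 p.2 b) ×ˢ Iio (κ p.1 p.2 b)))
      fun b => ((finite_Iic _).prod (finite_Iio _)).image _
  obtain ⟨a, ha⟩ := bdd_fun ρ
  have : ∀ (p : ℕ × ℕ) (s : List W), ∃ b, (∀ x ∈ s, a < x) → s.headD a < b ∧ ∀ x ∈ s,
      ∀ i ≤ κ p.1 p.2 b, ∀ t < κ p.1 p.2 b, x ≠ e (pt e (p.2 + 1) b b f₀ i) t := fun p s => by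
    by_cases h : ∀ x ∈ s, a < x
    · obtain ⟨b, h₁, h₂⟩ := hρ p s (fun x hx => (ha p).trans (h x hx)) (s.headD a)
      exact ⟨b, fun _ => ⟨h₁, fun x hx i hi t ht e => h₂ x hx ⟨(i, t), ⟨hi, ht⟩, e.symm⟩⟩⟩
    · exact ⟨a, fun h' => absurd h' h⟩
  choose G hG using this
  obtain ⟨C, hC, h⟩ := clo fun (p : (ℕ × ℕ) × ℕ) s =>
    max (pt e (p.1.2 + 1) (G p.1 s) (G p.1 s) f₀ p.2) (Order.succ (s.headD a))
  obtain ⟨d, hd, had⟩ := club_gt hC a
  have hs : ∀ x < d, Order.succ x < d := fun x hx =>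
    (le_max_right _ _).trans_lt (h d hd a had default [x] (by simpa using hx))
  have hlt : ∀ f i, pt e 0 d a f i < d := fun f i => by
    rw [pt, if_neg (Nat.not_lt_zero i), Nat.sub_zero]
    induction i with
    | zero => exact hs a had
    | succ i ih => exact max_lt ((he d a had).2 _) (hs _ ih)
  refine ⟨d, a, by_contra fun H => hS (mem_of_superset (countable_iInter_mem.2 fun j => generic
    (P := fun f n => ∃ m b, κ j m b = n ∧ pt e 0 d a f ∈ NN e (pt e (m + 1) b b f₀) n) ?_ ?_)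
      fun f hf hf' => H ⟨f, hf', fun j => ?_⟩)⟩
  · rintro f g n h₁ ⟨m, b, h₂, h₃⟩
    exact ⟨m, b, h₂, NN_congr (fun _ _ => rfl) (fun i hi => dec_congr h₁ i hi) h₃⟩
  · intro f n
    obtain ⟨s, hs'⟩ : ∃ s, s = pre (pt e 0 d a f) (n + 1) := ⟨_, rfl⟩
    have k₀ : ∀ x ∈ s, ∃ t < n + 1, x = pt e 0 d a f t := fun x hx => mem_pre (hs' ▸ hx)
    obtain ⟨k₁, k₂⟩ := hG (j, n) s fun x hx => by
      obtain ⟨t, -, rfl⟩ := k₀ x hx
      exact lt_pt (Nat.zero_le t) d a f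
    obtain ⟨y, hy⟩ : ∃ y, y = pt e (n + 1) (G (j, n) s) (G (j, n) s) f₀ := ⟨_, rfl⟩
    have k₃ : ∀ i, ∃ t, e d t = y i := fun i => (he d _ (hy ▸ (le_max_left _ _).trans_lt
      (h d hd a had ((j, n), i) s fun x hx => by
        obtain ⟨t, -, rfl⟩ := k₀ x hx
        exact hlt f t))).1
    choose c hc using k₃
    have k₄ : ∀ i ≤ n, pt e 0 d a (fun i => if i < n then f i else c (i + 1)) i = pt e 0 d a f i :=
      dec_congr fun i hi => if_pos hi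
    have k₅ : ∀ i, n + 1 ≤ i → pt e 0 d a (fun i => if i < n then f i else c (i + 1)) i = y i := by
      intro i hi
      induction i, hi using Nat.le_induction with
      | base =>
        refine (congrArg₂ max ((congrArg _ (if_neg (lt_irrefl n))).trans (hc _))
          (congrArg _ (k₄ n le_rfl))).trans (max_eq_left (Order.succ_le_of_lt ?_))
        rw [hs'] at k₁
        exact k₁.trans (hs' ▸ hy ▸ lt_pt le_rfl _ _ _)
      | succ i hi ih =>
        refine (congrArg₂ max ((congrArg _ (if_neg (by omega))).trans (hc _))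
          (congrArg _ ih)).trans (max_eq_left (Order.succ_le_of_lt ?_))
        rw [hy]
        exact (pt_inc _ _ _ _).2.1 _ _ i.lt_succ_self (lt_pt (by omega) _ _ _).ne_bot
    refine ⟨fun i => if i < n then f i else c (i + 1), _, fun i hi => if_pos hi, n, G (j, n) s, rfl,
      fun _ i _ => ?_⟩
    by_cases hi : i < n + 1
    · refine ⟨fun h => absurd (if_pos hi) h, fun _ _ => k₄ i (Nat.le_of_lt_succ hi) ▸ k₂ _ ?_⟩
      rw [hs']
      clear * - hi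
      induction n with
      | zero => simp_all [pre]
      | succ n ih =>
        rcases Nat.lt_succ_iff_lt_or_eq.1 hi with hi | rfl
        exacts [List.mem_cons_of_mem _ (ih hi), List.mem_cons_self]
    · exact ⟨fun _ => hy ▸ k₅ i (not_lt.1 hi), fun h =>
        absurd h (lt_pt (not_lt.1 hi) _ _ _).ne_bot⟩
  · obtain ⟨_, m, b, rfl, h⟩ := mem_iInter.1 hf j
    exact ⟨m, b, h⟩

theorem not_perf_of_nm (h : SmallM) : ¬ All Perf := fun H => by
  obtain ⟨f, hf⟩ := h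
  obtain ⟨e, he⟩ := exists_enum
  let Y : Set (ℕ → W) := range fun z : ℕ × W × W × W => pt e z.1 z.2.1 z.2.2.1 (f z.2.2.2)
  have S := sysN (fun b a h => (he b a h).1) (Y := Y) (by rintro _ ⟨z, rfl⟩; exact pt_inc _ _ _ _)
  let := S.top
  have := S.good.1
  have hc : IsClosed {p : Y | p.1 0 = ⊥} := ⟨fun p hp => ⟨0, fun q hq h =>
    hp (((hq hp 0 le_rfl).1 hp).symm.trans h)⟩⟩
  have hY : #Y = ℵ₁ := by
    refine le_antisymm (mk_range_le.trans ?_) (mk_W ▸ mk_le_of_injective (f := fun a : W =>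
      (⟨_, (0, a, a, a), rfl⟩ : Y)) fun a b h => Order.succ_injective
        (congrArg (fun p : Y => p.1 0) h))
    simp
  obtain ⟨U, hU, eq⟩ := isGδ_iff_eq_iInter_nat.1 (H Y hY S.good.2 _ hc)
  choose κ hκ using fun j m b => hU j ⟨_, (m + 1, b, b, ⊥), rfl⟩
    (mem_iInter.1 (eq.subset (show pt e (m + 1) b b (f ⊥) 0 = ⊥ from if_pos m.succ_pos)) j)
  obtain ⟨d, a, _, ⟨c, rfl⟩, h⟩ := masterN he hf (f ⊥) κ
  refine (lt_pt (e := e) (le_refl 0) d a (f c)).ne_bot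
    (eq ▸ mem_iInter.2 fun j => ?_ : (⟨_, (0, d, a, c), rfl⟩ : Y) ∈ {p : Y | p.1 0 = ⊥})
  obtain ⟨m, b, h⟩ := h j
  exact hκ j m b h

end

end Pool.Agent.MP_5a4599_gt.K
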