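import Pool.Agent.MP_5a4599_gt.K.Base

/- Neighbourhood systems and games on increasing sequences. -/

set_option autoImplicit false

namespace Pool.Agent.MP_5a4599_gt.K

open Set Filter Cardinal TopologicalSpace Topology

section sys

variable {X : Type} {N : X → ℕ → Set X}

/-- A clopen neighbourhood system. -/
structure Sys (N : X → ℕ → Set X) : Prop where
  mem : ∀ p n, p ∈ N p n
  anti : ∀ p, Antitone (N p)
  op : ∀ p n q, q ∈ N p n → ∃ m, N q m ⊆ N p n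
  cl : ∀ p n q, q ∉ N p n → ∃ m, ∀ x ∈ N q m, x ∉ N p n
  sep : ∀ p q, p ≠ q → ∃ n, q ∉ N p n
  lc : ∀ n p, ∃ m, {V ∈ range (N · n) | (V ∩ N p m).Nonempty}.Countable

/-- The topology of a system. -/
@[reducible] def Sys.top (h : Sys N) : TopologicalSpace X where
  IsOpen O := ∀ p ∈ O, ∃ n, N p n ⊆ O
  isOpen_univ _ _ := ⟨0, subset_univ _⟩
  isOpen_inter s t hs ht p hp := by
    obtain ⟨n, hn⟩ := hs p hp.1
    obtain ⟨m, hm⟩ := ht p hp.2
    exact ⟨max n m, subset_inter ((h.anti p (le_max_left _ _)).trans hn)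
      ((h.anti p (le_max_right _ _)).trans hm)⟩
  isOpen_sUnion s hs p := fun ⟨t, ht, hp⟩ =>
    (hs t ht p hp).imp fun _ hn => hn.trans (subset_sUnion_of_mem ht)

theorem Sys.good (h : Sys N) : @T3Space X h.top ∧ @SigmaLC X h.top := by
  let := h.top
  have ho : ∀ p n, IsOpen (N p n) := fun p n => h.op p n
  have hc : ∀ p n, IsClosed (N p n) := fun p n => ⟨h.cl p n⟩
  have hn : ∀ p n, N p n ∈ 𝓝 p := fun p n => (ho p n).mem_nhds (h.mem p n)
  have : T1Space X := t1Space_iff_exists_open.2 fun p q e =>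
    let ⟨n, hq⟩ := h.sep p q e; ⟨_, ho p n, h.mem p n, hq⟩
  have : RegularSpace X := .of_exists_mem_nhds_isClosed_subset fun p s hs => by
    obtain ⟨t, h₁, h₂, h₃⟩ := mem_nhds_iff.1 hs
    obtain ⟨n, h₄⟩ := h₂ p h₃
    exact ⟨_, hn p n, hc p n, h₄.trans h₁⟩
  refine ⟨⟨⟩, fun n => range (N · n), isTopologicalBasis_of_isOpen_of_nhds ?_ ?_, fun n p => ?_⟩
  · rintro _ ⟨_, ⟨n, rfl⟩, p, rfl⟩
    exact ho p n
  · intro p u hp hu
    obtain ⟨n, h₁⟩ := hu p hp
    exact ⟨_, mem_iUnion.2 ⟨n, p, rfl⟩, h.mem p n, h₁⟩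
  · obtain ⟨m, hm⟩ := h.lc n p
    exact ⟨_, hn p m, hm⟩

end sys

/-- `y` is separated by `C` above `a`. -/
def Sep (C : Set W) (a : W) (y : ℕ → W) : Prop :=
  ∀ i, ∃ z ∈ C, a < z ∧ (∀ t < i, y t < z) ∧ z < y i

theorem exists_sep (h : IH) : ∃ c : W → ℕ → W, (∀ a, StrictMono (c a)) ∧
    ∀ C, IsClub C → ∀ a, ∃ b, Sep C a (c b) := by
  obtain ⟨y, hy, h⟩ := h
  obtain ⟨p, hp⟩ := exists_pair
  obtain ⟨w, hw⟩ := exists_mono
  obtain ⟨q, hq⟩ := hw.injective.hasLeftInverse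
  refine ⟨fun b i => y (p b).1 (2 * i + q (p b).2 + 2), fun b i j hij => hy _ (by omega),
    fun C hC a => ?_⟩
  obtain ⟨b, hb⟩ := h _ (clo1 hC fun _ => a)
  obtain ⟨m, hm⟩ := eventually_atTop.1 hb
  obtain ⟨b', hb'⟩ := hp (b, w m)
  refine ⟨b', fun i => ?_⟩
  obtain ⟨z, hz, h₁, h₂⟩ := hm (2 * i + m + 1) (by omega)
  simp only [hb', hq m]
  exact ⟨z, hz.1, hz.2 _ ((hy b (Nat.lt_succ_self _)).trans_le h₁),
    fun t ht => (hy b (by omega)).trans_le h₁, h₂⟩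

/-- Initial segments, newest entry first. -/
def pre (g : ℕ → W) : ℕ → List W
  | 0 => []
  | n + 1 => g n :: pre g n

theorem pre_len (g : ℕ → W) (n : ℕ) : (pre g n).length = n := by
  induction n with
  | zero => rfl
  | succ n ih => simp [pre, ih]

theorem mem_pre {g : ℕ → W} {n : ℕ} {x : W} (h : x ∈ pre g n) : ∃ t < n, x = g t := by
  induction n with
  | zero => cases h
  | succ n ih =>
    rcases List.mem_cons.1 h with rfl | h
    · exact ⟨n, n.lt_succ_self, rfl⟩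
    · exact (ih h).imp fun t ht => ⟨ht.1.trans n.lt_succ_self, ht.2⟩

/-- Unboundedly splitting trees with leaves in `A`. -/
def Win (A : Set (List W)) : ℕ → List W → Prop
  | 0, s => s ∈ A
  | m + 1, s => ∀ a, ∃ b, a < b ∧ Win A m (b :: s)

/-- The entries lie in the boxes given by `d`. -/
def Box (d : ℕ → W) : List W → Prop
  | [] => True
  | b :: s => d s.length ≤ b ∧ b < d (s.length + 1) ∧ Box d s

theorem box_pre {d g : ℕ → W} {n : ℕ} (h : Box d (pre g n)) :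
    ∀ i < n, d i ≤ g i ∧ g i < d (i + 1) := by
  induction n with
  | zero => simp
  | succ n ih =>
    intro i hi
    obtain ⟨h₁, h₂, h₃⟩ := h
    rw [pre_len] at h₁ h₂
    rcases Nat.lt_succ_iff_lt_or_eq.1 hi with hi | rfl
    exacts [ih h₃ i hi, ⟨h₁, h₂⟩]

theorem box_lt {d : ℕ → W} (hd : StrictMono d) {s : List W} (h : Box d s) :
    ∀ x ∈ s, x < d s.length := by
  induction s with
  | nil => simp
  | cons b s ih =>
    intro x hx
    rcases List.mem_cons.1 hx with rfl | hx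
    exacts [h.2.1, (ih h.2.2 x hx).trans (hd (Nat.lt_succ_self _))]

theorem baire {c : W → ℕ → W} (hc : ∀ C, IsClub C → ∀ a, ∃ b, Sep C a (c b)) {I : Type}
    [Countable I] (k : W → ℕ) (col : W → I) :
    ∃ n i, Win {s | ∃ b, k b = n ∧ col b = i ∧ s = pre (c b) n} n [] := by
  by_contra! H
  have : ∀ (p : ℕ × I × ℕ) (s : List W), ∃ a, ∀ A,
      A = {s | ∃ b, k b = p.1 ∧ col b = p.2.1 ∧ s = pre (c b) p.1} → ¬ Win A (p.2.2 + 1) s →
        ∀ b, a < b → ¬ Win A p.2.2 (b :: s) := fun p s => by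
    by_cases h : Win {s | ∃ b, k b = p.1 ∧ col b = p.2.1 ∧ s = pre (c b) p.1} (p.2.2 + 1) s
    · exact ⟨Classical.arbitrary W, fun A e h' => absurd (e ▸ h) h'⟩
    · obtain ⟨a, ha⟩ := not_forall.1 h
      exact ⟨a, fun A e _ b hb h' => ha ⟨b, hb, e ▸ h'⟩⟩
  choose G hG using this
  obtain ⟨C, hC, h⟩ := clo G
  obtain ⟨b, hb⟩ := hc C hC (Classical.arbitrary W)
  have : ∀ i m, i + m = k b →
      ¬ Win {s | ∃ b', k b' = k b ∧ col b' = col b ∧ s = pre (c b') (k b)} m (pre (c b) i) := by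
    intro i
    induction i with
    | zero =>
      rintro m e
      rw [zero_add] at e
      exact e ▸ H _ _
    | succ i ih =>
      intro m e
      obtain ⟨z, hz, h₁, h₂, h₃⟩ := hb i
      refine hG (k b, col b, m) _ _ rfl (ih (m + 1) (by omega)) _ ((h z hz _ h₁ _ _ ?_).trans h₃)
      intro x hx
      obtain ⟨t, ht, rfl⟩ := mem_pre hx
      exact h₂ t ht
  exact this _ 0 rfl ⟨b, rfl, rfl, rfl⟩

theorem follow (A : ℕ → W → Set (List W)) : ∃ C, IsClub C ∧ ∀ a d, StrictMono d → Sep C a d →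
    ∀ j b, b < a → ∀ m s, Win (A j b) m s → Box d s → ∃ s' ∈ A j b, Box d s' := by
  have : ∀ (p : ℕ × ℕ) (t : List W), ∃ x, ∀ a b s, t = a :: b :: s →
      Win (A p.1 b) (p.2 + 1) s → a < x ∧ Win (A p.1 b) p.2 (x :: s) := fun p t => by
    by_cases h : ∃ a b s, t = a :: b :: s ∧ Win (A p.1 b) (p.2 + 1) s
    · obtain ⟨a, b, s, rfl, h⟩ := h
      obtain ⟨x, hx⟩ := h a
      refine ⟨x, fun _ _ _ e _ => ?_⟩
      cases e
      exact hx
    · exact ⟨Classical.arbitrary W, fun a b s e h' => absurd ⟨a, b, s, e, h'⟩ h⟩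
  choose G hG using this
  obtain ⟨C, hC, h⟩ := clo G
  refine ⟨C, hC, fun a d hd hs j b hb m => ?_⟩
  induction m with
  | zero => exact fun s h₁ h₂ => ⟨s, h₁, h₂⟩
  | succ m ih =>
    intro s h₁ h₂
    obtain ⟨z, hz, k₁, k₂, k₃⟩ := hs (s.length + 1)
    obtain ⟨k₄, k₅⟩ := hG (j, m) _ (d s.length) b s rfl h₁
    refine ih _ k₅ ⟨k₄.le, (h z hz _ k₁ _ _ fun x hx => ?_).trans k₃, h₂⟩
    have k₆ := k₂ _ (Nat.lt_succ_self _)
    rcases List.mem_cons.1 hx with rfl | hx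
    · exact k₆
    rcases List.mem_cons.1 hx with rfl | hx
    exacts [hb.trans k₁, (box_lt hd h₂ x hx).trans k₆]

theorem exists_enum : ∃ e : W → ℕ → W, ∀ b a, a < b → (∃ m, e b m = a) ∧ ∀ m, e b m < b := by
  have : ∀ b : W, ∃ e : ℕ → W, ∀ a, a < b → (∃ m, e m = a) ∧ ∀ m, e m < b := fun b => by
    by_cases h : (Iio b).Nonempty
    · obtain ⟨e, he⟩ := (ct_Iio b).exists_eq_range h
      exact ⟨e, fun a ha => ⟨show a ∈ range e from he ▸ ha,
        fun m => show e m ∈ Iio b from he ▸ mem_range_self m⟩⟩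
    · exact ⟨fun _ => b, fun a ha => absurd ⟨a, ha⟩ h⟩
  exact ⟨_, fun b => (this b).choose_spec⟩

/-- Pressing down. -/
theorem press {e : W → ℕ → W} (he : ∀ b a, a < b → ∀ m, e b m < b) {I : Type} [Countable I]
    {P : I → ℕ → W → Prop} (hP : ∀ b, ∃ i l, P i l b) :
    ∃ i l a, ∀ x, ∃ b, x < b ∧ P i l b ∧ ∀ m ≤ l, e b m < a := by
  by_contra! H
  choose G hG using H
  obtain ⟨w⟩ : Nonempty W := inferInstance
  obtain ⟨C, hC, h⟩ := clo fun (p : I × ℕ) s => max (G p.1 p.2 (Order.succ (s.headD w)))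
    (Order.succ (s.headD w))
  obtain ⟨z, hz, hw⟩ := club_gt hC w
  obtain ⟨i, l, hi⟩ := hP z
  obtain ⟨m, -, hm⟩ := (Finset.range (l + 1)).exists_max_image (e z) ⟨0, by simp⟩
  obtain ⟨m', h₁, h₂⟩ := hG i l (Order.succ (e z m)) z ((le_max_left _ _).trans_lt
    (h z hz w hw (i, l) [e z m] (by simpa using he z w hw m))) hi
  exact (Order.lt_succ _).not_ge (h₂.trans (hm m' (by simpa [Nat.lt_succ_iff] using h₁)))

end Pool.Agent.MP_5a4599_gt.K
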